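import Mathlib

/-!
# Coding the Baire space in `(0, 1]`

`code w = ∑ₖ 2 ^ (-(w 0 + 1) - ... - (w k + 1))` is a continuous bijection from `ℕ → ℕ` onto
`(0, 1]`, whose inverse is continuous at the irrational points.
-/

set_option autoImplicit false

namespace Pool.Agent.Lib.MP_1073f4_an

open Set Filter Topology

/-- The coding map. -/
noncomputable def code (w : ℕ → ℕ) : ℝ :=
  ∑' k : ℕ, (1 / 2 : ℝ) ^ (∑ j ∈ Finset.range (k + 1), (w j + 1))

theorem code_exp_ge (w : ℕ → ℕ) (k : ℕ) : k + 1 ≤ ∑ j ∈ Finset.range (k + 1), (w j + 1) := by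
  calc k + 1 = ∑ _j ∈ Finset.range (k + 1), 1 := by simp
    _ ≤ _ := Finset.sum_le_sum fun j _ => by omega

theorem code_term_le (w : ℕ → ℕ) (k : ℕ) :
    (1 / 2 : ℝ) ^ (∑ j ∈ Finset.range (k + 1), (w j + 1)) ≤ (1 / 2) ^ (k + 1) :=
  pow_le_pow_of_le_one (by norm_num) (by norm_num) (code_exp_ge w k)

theorem summable_half_succ : Summable fun k : ℕ => (1 / 2 : ℝ) ^ (k + 1) :=
  (summable_nat_add_iff 1).2 summable_geometric_two

theorem tsum_half_succ : ∑' k : ℕ, (1 / 2 : ℝ) ^ (k + 1) = 1 := by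
  have h := tsum_geometric_two
  rw [Summable.tsum_eq_zero_add summable_geometric_two] at h
  simp only [pow_zero] at h
  linarith

theorem code_summable (w : ℕ → ℕ) :
    Summable fun k : ℕ => (1 / 2 : ℝ) ^ (∑ j ∈ Finset.range (k + 1), (w j + 1)) :=
  Summable.of_nonneg_of_le (fun _ => by positivity) (code_term_le w) summable_half_succ

theorem code_pos (w : ℕ → ℕ) : 0 < code w :=
  (code_summable w).tsum_pos (fun _ => by positivity) 0 (by positivity)

theorem code_le_one (w : ℕ → ℕ) : code w ≤ 1 := by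
  rw [← tsum_half_succ]
  exact (code_summable w).tsum_le_tsum (code_term_le w) summable_half_succ

theorem code_succ (w : ℕ → ℕ) :
    code w = (1 / 2) ^ (w 0 + 1) * (1 + code fun k => w (k + 1)) := by
  unfold code
  rw [(code_summable w).tsum_eq_zero_add, mul_add, mul_one, ← tsum_mul_left]
  have h0 : ∑ j ∈ Finset.range (0 + 1), (w j + 1) = w 0 + 1 := by simp
  have h1 : ∀ k : ℕ, (1 / 2 : ℝ) ^ (∑ j ∈ Finset.range (k + 1 + 1), (w j + 1)) =
      (1 / 2) ^ (w 0 + 1) * (1 / 2) ^ (∑ j ∈ Finset.range (k + 1), (w (j + 1) + 1)) := by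
    intro k
    rw [Finset.sum_range_succ' (fun j => w j + 1) (k + 1), pow_add, mul_comm]
  rw [h0]
  congr 2
  funext k
  exact h1 k

theorem code_gt (w : ℕ → ℕ) : (1 / 2 : ℝ) ^ (w 0 + 1) < code w := by
  rw [code_succ w]
  have h1 := code_pos fun k => w (k + 1)
  have h2 : (0:ℝ) < (1 / 2) ^ (w 0 + 1) := by positivity
  nlinarith

theorem code_le (w : ℕ → ℕ) : code w ≤ (1 / 2 : ℝ) ^ (w 0) := by
  rw [code_succ w, pow_succ]
  have h1 := code_le_one fun k => w (k + 1)
  have h2 : (0:ℝ) < (1 / 2) ^ (w 0) := by positivity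
  nlinarith

/-- The first letter is determined by the dyadic shell containing the code. -/
theorem head_eq {w w' : ℕ → ℕ} (h1 : (1 / 2 : ℝ) ^ (w 0 + 1) < code w')
    (h2 : code w' ≤ (1 / 2) ^ (w 0)) : w' 0 = w 0 := by
  have hlt : ∀ {a b : ℕ}, (1 / 2 : ℝ) ^ (a + 1) < (1 / 2) ^ b → b ≤ a := by
    intro a b h
    by_contra hcon
    push Not at hcon
    exact absurd (pow_le_pow_of_le_one (by norm_num : (0:ℝ) ≤ 1 / 2) (by norm_num)
      (Nat.succ_le_of_lt hcon)) (not_le.2 h)
  exact le_antisymm (hlt (h1.trans_le (code_le w'))) (hlt ((code_gt w').trans_le h2))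

theorem code_injective : Function.Injective code := by
  have key : ∀ (k : ℕ) (w w' : ℕ → ℕ), code w = code w' → w k = w' k := by
    intro k
    induction k with
    | zero =>
      intro w w' h
      exact (head_eq (h ▸ code_gt w) (h ▸ code_le w)).symm
    | succ k ih =>
      intro w w' h
      have h0 : w' 0 = w 0 := head_eq (h ▸ code_gt w) (h ▸ code_le w)
      rw [code_succ w, code_succ w', h0] at h
      have h2 := mul_left_cancel₀ (by positivity) h
      exact ih _ _ (add_left_cancel h2)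
  intro w w' h
  exact funext fun k => key k w w' h

theorem code_continuous : Continuous code := by
  unfold code
  refine continuous_tsum (u := fun k : ℕ => (1 / 2 : ℝ) ^ (k + 1)) ?_ summable_half_succ ?_
  · intro k
    have h1 : Continuous fun w : ℕ → ℕ => ∑ j ∈ Finset.range (k + 1), (w j + 1) :=
      continuous_finsetSum _ fun j _ =>
        (continuous_of_discreteTopology (f := fun n : ℕ => n + 1)).comp (continuous_apply j)
    exact (continuous_of_discreteTopology (f := fun n : ℕ => (1 / 2 : ℝ) ^ n)).comp h1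
  · intro k w
    rw [Real.norm_of_nonneg (by positivity)]
    exact code_term_le w k

theorem exists_step (t : Ioc (0:ℝ) 1) : ∃ (m : ℕ) (t' : Ioc (0:ℝ) 1),
    (t : ℝ) = (1 / 2) ^ (m + 1) * (1 + t') := by
  obtain ⟨m, h1, h2⟩ := exists_nat_pow_near_of_lt_one t.2.1 t.2.2
    (by norm_num : (0:ℝ) < 1 / 2) (by norm_num)
  have h3 : (0:ℝ) < (1 / 2) ^ (m + 1) := by positivity
  refine ⟨m, ⟨(t : ℝ) / (1 / 2) ^ (m + 1) - 1, ?_, ?_⟩, ?_⟩
  · rw [sub_pos, lt_div_iff₀ h3, one_mul]; exact h1
  · rw [sub_le_iff_le_add, div_le_iff₀ h3, pow_succ]; linarith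
  · simp only
    field_simp
    ring

theorem code_surj {t : ℝ} (ht : t ∈ Ioc (0:ℝ) 1) : ∃ w, code w = t := by
  choose M R hMR using exists_step
  let w : Ioc (0:ℝ) 1 → ℕ → ℕ := fun t k => M (R^[k] t)
  have hw0 : ∀ t, w t 0 = M t := fun t => rfl
  have hws : ∀ t, (fun k => w t (k + 1)) = w (R t) := fun t => by
    funext k
    simp only [w, Function.iterate_succ_apply]
  have key : ∀ (k : ℕ) (t : Ioc (0:ℝ) 1), |(t : ℝ) - code (w t)| ≤ (1 / 2) ^ k := by
    intro k
    induction k with
    | zero =>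
      intro t
      rw [pow_zero, abs_le]
      have h1 := code_pos (w t)
      have h2 := code_le_one (w t)
      have h3 := t.2.1
      have h4 := t.2.2
      constructor <;> linarith
    | succ k ih =>
      intro t
      have h1 : (t : ℝ) - code (w t) = (1 / 2) ^ (M t + 1) * ((R t : ℝ) - code (w (R t))) := by
        rw [code_succ (w t), hw0, hws]
        nth_rewrite 1 [hMR t]
        ring
      rw [h1, abs_mul, abs_of_pos (by positivity : (0:ℝ) < (1 / 2) ^ (M t + 1)), pow_succ' (1 / 2 : ℝ) k]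
      refine mul_le_mul ?_ (ih (R t)) (abs_nonneg _) (by norm_num)
      calc (1 / 2 : ℝ) ^ (M t + 1) ≤ (1 / 2) ^ 1 :=
            pow_le_pow_of_le_one (by norm_num) (by norm_num) (by omega)
        _ = 1 / 2 := pow_one _
  refine ⟨w ⟨t, ht⟩, ?_⟩
  have h2 : |t - code (w ⟨t, ht⟩)| ≤ 0 :=
    ge_of_tendsto' (tendsto_pow_atTop_nhds_zero_of_lt_one (by norm_num : (0:ℝ) ≤ 1 / 2)
      (by norm_num)) fun k => key k ⟨t, ht⟩
  have h3 := abs_eq_zero.1 (le_antisymm h2 (abs_nonneg _))
  linarith

/-- At irrational codes, each letter is locally constant. -/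
theorem code_letter (k : ℕ) : ∀ w : ℕ → ℕ, Irrational (code w) →
    ∃ δ > 0, ∀ w', |code w' - code w| < δ → w' k = w k := by
  have hhead : ∀ w : ℕ → ℕ, Irrational (code w) →
      ∃ δ > 0, ∀ w', |code w' - code w| < δ → w' 0 = w 0 := by
    intro w hw
    have h1 := code_gt w
    have h2 : code w < (1 / 2 : ℝ) ^ (w 0) := by
      refine lt_of_le_of_ne (code_le w) fun h => hw ?_
      rw [h]
      exact ⟨(1 / 2) ^ (w 0), by push_cast; rfl⟩
    refine ⟨min (code w - (1 / 2) ^ (w 0 + 1)) ((1 / 2) ^ (w 0) - code w),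
      lt_min (by linarith) (by linarith), ?_⟩
    intro w' hw'
    rw [lt_min_iff] at hw'
    have h3 := abs_lt.1 hw'.1
    have h4 := abs_lt.1 hw'.2
    exact head_eq (by linarith [h3.1]) (by linarith [h4.2])
  induction k with
  | zero => exact hhead
  | succ k ih =>
    intro w hw
    have h8 : (0:ℝ) < (1 / 2) ^ (w 0 + 1) := by positivity
    have hirr : Irrational (code fun k => w (k + 1)) := by
      intro ⟨q, hq⟩
      apply hw
      rw [code_succ w, ← hq]
      exact ⟨(1 / 2) ^ (w 0 + 1) * (1 + q), by push_cast; rfl⟩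
    obtain ⟨δ₀, hδ₀, h0⟩ := hhead w hw
    obtain ⟨δ₁, hδ₁, h1⟩ := ih _ hirr
    refine ⟨min δ₀ (δ₁ * (1 / 2) ^ (w 0 + 1)), lt_min hδ₀ (by positivity), ?_⟩
    intro w' hw'
    rw [lt_min_iff] at hw'
    have hh := h0 w' hw'.1
    refine h1 (fun k => w' (k + 1)) ?_
    have h2 := hw'.2
    rw [code_succ w, code_succ w', hh, ← mul_sub, abs_mul, abs_of_pos h8, mul_comm] at h2
    have h3 := lt_of_mul_lt_mul_right h2 h8.le
    rwa [add_sub_add_left_eq_sub] at h3

theorem tendsto_of_code {α : Type*} {l : Filter α} {w : α → ℕ → ℕ} {w₀ : ℕ → ℕ}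
    (h : Tendsto (fun a => code (w a)) l (𝓝 (code w₀))) (hirr : Irrational (code w₀)) :
    Tendsto w l (𝓝 w₀) := by
  rw [tendsto_pi_nhds]
  intro k
  obtain ⟨δ, hδ, hk⟩ := code_letter k w₀ hirr
  apply tendsto_nhds_of_eventually_eq
  filter_upwards [h.eventually (Metric.ball_mem_nhds _ hδ)] with a ha
  exact hk _ (by simpa [Real.dist_eq] using ha)

/-- The closed subset of the plane coding a continuous map `F` of the Baire space. -/
def planeSet (F : (ℕ → ℕ) → (ℕ → ℕ)) : Set (ℝ × ℝ) :=
  closure (range fun w => (code (F w), code w))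

theorem planeSet_irrational {F : (ℕ → ℕ) → (ℕ → ℕ)} (hF : Continuous F) {z : ℕ → ℕ} {t : ℝ}
    (h : (code z, t) ∈ planeSet F) (ht : Irrational t) : ∃ w, code w = t ∧ F w = z := by
  obtain ⟨x, hx, hlim⟩ := mem_closure_iff_seq_limit.1 h
  choose w hw using hx
  have h1 : Tendsto (fun n => code (w n)) atTop (𝓝 t) := by
    have := (continuous_snd.tendsto _).comp hlim
    refine this.congr fun n => ?_
    simp only [Function.comp_apply, ← hw]
  have h2 : Tendsto (fun n => code (F (w n))) atTop (𝓝 (code z)) := by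
    have := (continuous_fst.tendsto _).comp hlim
    refine this.congr fun n => ?_
    simp only [Function.comp_apply, ← hw]
  have h0 : 0 ≤ t := ge_of_tendsto' h1 fun n => (code_pos _).le
  have h3 : t ≤ 1 := le_of_tendsto' h1 fun n => code_le_one _
  have h0' : 0 < t := lt_of_le_of_ne h0 fun h => ht ⟨0, by rw [← h]; simp⟩
  obtain ⟨w₀, hw₀⟩ := code_surj ⟨h0', h3⟩
  refine ⟨w₀, hw₀, ?_⟩
  rw [← hw₀] at h1 ht
  have h4 := tendsto_of_code h1 ht
  have h5 := ((code_continuous.comp hF).tendsto w₀).comp h4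
  exact code_injective (tendsto_nhds_unique h5 h2)

theorem planeSet_mem (F : (ℕ → ℕ) → (ℕ → ℕ)) (w : ℕ → ℕ) : (code (F w), code w) ∈ planeSet F :=
  subset_closure (mem_range_self w)

theorem isClosed_planeSet (F : (ℕ → ℕ) → (ℕ → ℕ)) : IsClosed (planeSet F) := isClosed_closure

/-- Sets in the Baire space containing an injective image of `ℕ → ℕ` are uncountable. -/
theorem not_countable_of_injective {T : Set (ℕ → ℕ)} {φ : (ℕ → ℕ) → (ℕ → ℕ)}
    (hφ : Function.Injective φ) (hT : ∀ b, φ b ∈ T) : ¬ T.Countable := by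
  intro h
  have h1 : (range φ).Countable := h.mono (by rintro _ ⟨b, rfl⟩; exact hT b)
  have h2 : Countable (ℕ → ℕ) := by
    have : Countable (range φ) := Set.countable_coe_iff.2 h1
    exact (Equiv.ofInjective φ hφ).countable_iff.2 this
  obtain ⟨g, hg⟩ := exists_surjective_nat (ℕ → ℕ)
  obtain ⟨n, hn⟩ := hg fun k => g k k + 1
  have := congrFun hn n
  omega

/-- Every non-empty analytic subset of the Baire space is the image of a continuous map all of
whose non-empty fibres are uncountable. -/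
theorem exists_map {s : Set (ℕ → ℕ)} (hs : MeasureTheory.AnalyticSet s) (hne : s.Nonempty) :
    ∃ F : (ℕ → ℕ) → (ℕ → ℕ), Continuous F ∧
      (∀ z ∈ s, ¬ {w | F w = z}.Countable) ∧ ∀ w, F w ∈ s := by
  rw [MeasureTheory.AnalyticSet] at hs
  rcases hs with rfl | ⟨f, hf, rfl⟩
  · exact absurd hne (by simp)
  · refine ⟨fun w => f fun k => w (2 * k), hf.comp (continuous_pi fun k => continuous_apply _),
      ?_, fun w => mem_range_self _⟩
    rintro _ ⟨a, rfl⟩
    refine not_countable_of_injective (φ := fun b k => if k % 2 = 0 then a (k / 2) else b (k / 2))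
      ?_ ?_
    · intro b b' h
      funext k
      have := congrFun h (2 * k + 1)
      have h1 : (2 * k + 1) % 2 = 1 := by omega
      have h2 : (2 * k + 1) / 2 = k := by omega
      simpa [h1, h2] using this
    · intro b
      show f _ = f a
      congr 1
      funext k
      have h1 : (2 * k) % 2 = 0 := by omega
      have h2 : (2 * k) / 2 = k := by omega
      simp only [h1, h2, if_true]

end Pool.Agent.Lib.MP_1073f4_an
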