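import Mathlib

/-!
# Entropy lemmas

* `entropy_pos`: a map with two disjoint closed sets all of whose finite itineraries (at the times
  `0, m, 2m, ...`) are realised has positive topological entropy.
* `entropy_id`: the identity of a compact metric space has zero topological entropy.
-/

set_option autoImplicit false

namespace Pool.Agent.Lib.MP_1073f4_an

open Set Dynamics ExpGrowth Uniformity

theorem entropy_pos {Y : Type*} [MetricSpace Y] [CompactSpace Y] (g : Y → Y) (A B : Set Y)
    (hA : IsClosed A) (hB : IsClosed B) (hAB : Disjoint A B) (m : ℕ) (hm : 0 < m)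
    (h : ∀ (N : ℕ) (w : Fin N → Bool), ∃ y, ∀ i : Fin N,
      g^[m * (i : ℕ)] y ∈ if w i = true then A else B) :
    0 < coverEntropy g univ := by
  classical
  obtain ⟨δ, hδ, hd⟩ := hAB.exists_thickenings hA.isCompact hB
  set U : SetRel Y Y := {p : Y × Y | dist p.1 p.2 < δ} with hU
  have hUu : U ∈ 𝓤 Y := Metric.dist_mem_uniformity hδ
  refine lt_of_lt_of_le ?_ (coverEntropyEntourage_le_coverEntropy g univ hUu)
  refine lt_of_lt_of_le ?_ (netEntropyEntourage_le_coverEntropyEntourage g univ)
  -- the net
  have key : ∀ N : ℕ, (2 : ENNReal) ^ N ≤ (netMaxcard g univ U (m * N) : ENNReal) := by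
    intro N
    choose y hy using fun w : Fin N → Bool => h N w
    have hinj : ∀ w w' : Fin N → Bool, w ≠ w' →
        Disjoint (UniformSpace.ball (y w) (dynEntourage g U (m * N)))
          (UniformSpace.ball (y w') (dynEntourage g U (m * N))) := by
      intro w w' hne
      rw [Set.disjoint_left]
      intro z hz hz'
      obtain ⟨i, hi⟩ := Function.ne_iff.1 hne
      have him : m * (i : ℕ) < m * N := Nat.mul_lt_mul_of_pos_left i.2 hm
      have h1 : dist (g^[m * (i : ℕ)] (y w)) (g^[m * (i : ℕ)] z) < δ :=
        mem_dynEntourage.1 hz _ him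
      have h2 : dist (g^[m * (i : ℕ)] (y w')) (g^[m * (i : ℕ)] z) < δ :=
        mem_dynEntourage.1 hz' _ him
      have h3 := hy w i
      have h4 := hy w' i
      rcases hb : w i with _ | _ <;> rcases hb' : w' i with _ | _
      · exact hi (hb.trans hb'.symm)
      · rw [hb] at h3; rw [hb'] at h4
        simp only [Bool.false_eq_true, if_false, if_true] at h3 h4
        exact Set.disjoint_left.1 hd (Metric.mem_thickening_iff.2 ⟨_, h4, by rwa [dist_comm]⟩)
          (Metric.mem_thickening_iff.2 ⟨_, h3, by rwa [dist_comm]⟩)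
      · rw [hb] at h3; rw [hb'] at h4
        simp only [Bool.false_eq_true, if_false, if_true] at h3 h4
        exact Set.disjoint_left.1 hd (Metric.mem_thickening_iff.2 ⟨_, h3, by rwa [dist_comm]⟩)
          (Metric.mem_thickening_iff.2 ⟨_, h4, by rwa [dist_comm]⟩)
      · exact hi (hb.trans hb'.symm)
    have hyinj : Function.Injective y := by
      intro w w' hww
      by_contra hne
      have := hinj w w' hne
      rw [hww] at this
      have hmem : y w' ∈ UniformSpace.ball (y w') (dynEntourage g U (m * N)) :=
        mem_dynEntourage.2 fun k _ => by simp [hU, hδ]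
      exact Set.disjoint_left.1 this hmem hmem
    have hnet : IsDynNetIn g univ U (m * N) ((Finset.univ.image y : Finset Y) : Set Y) := by
      refine ⟨subset_univ _, ?_⟩
      intro a ha b hb hab
      simp only [Finset.coe_image, Finset.coe_univ, image_univ, mem_range] at ha hb
      obtain ⟨w, rfl⟩ := ha
      obtain ⟨w', rfl⟩ := hb
      exact hinj w w' fun h => hab (by rw [h])
    have hc := hnet.card_le_netMaxcard
    rw [Finset.card_image_of_injective _ hyinj, Finset.card_univ, Fintype.card_fun,
      Fintype.card_bool, Fintype.card_fin] at hc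
    have := ENat.toENNReal_mono hc
    simpa using this
  have hmono : Monotone fun n : ℕ => (netMaxcard g univ U n : ENNReal) :=
    fun _ _ hab => ENat.toENNReal_mono (netMaxcard_monotone_time g univ U hab)
  have h1 := hmono.expGrowthSup_comp_mul hm.ne'
  have h2 : ENNReal.log 2 ≤
      expGrowthSup (fun n : ℕ => (netMaxcard g univ U (m * n) : ENNReal)) := by
    rw [← expGrowthSup_pow]
    exact expGrowthSup_monotone fun n => key n
  rw [h1] at h2
  have h3 : (0 : EReal) < ENNReal.log 2 := by
    rw [← ENNReal.log_one]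
    exact ENNReal.log_strictMono (by norm_num)
  unfold netEntropyEntourage
  by_contra hcon
  push Not at hcon
  have h4 : (m : EReal) * expGrowthSup (fun n : ℕ => (netMaxcard g univ U n : ENNReal)) ≤ 0 :=
    mul_nonpos_of_nonneg_of_nonpos (by positivity) hcon
  exact absurd (lt_of_lt_of_le h3 (h2.trans h4)) (lt_irrefl _)

theorem entropy_id {Y : Type*} [MetricSpace Y] [CompactSpace Y] :
    ¬ (0 < coverEntropy (id : Y → Y) univ) := by
  rw [not_lt]
  unfold coverEntropy
  refine iSup₂_le fun U hU => ?_
  obtain ⟨V, hV, hVs, hVU⟩ := comp_symm_mem_uniformity_sets hU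
  have hfin : coverMincard (id : Y → Y) univ V 1 < ⊤ :=
    coverMincard_finite_of_isCompact_invariant isCompact_univ (mapsTo_univ _ _) hV 1
  obtain ⟨s, hs, hcard⟩ := (coverMincard_finite_iff _ _ _ _).1 hfin
  have hcov : ∀ n : ℕ, IsDynCoverOf (id : Y → Y) univ V n (s : Set Y) := by
    intro n y hy
    obtain ⟨z, hz, hyz⟩ := hs hy
    refine ⟨z, hz, ?_⟩
    rw [mem_dynEntourage] at hyz ⊢
    intro k hk
    have := hyz 0 one_pos
    simpa using this
  have hVsub : V ⊆ U := by
    refine subset_trans ?_ hVU
    intro p hp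
    exact ⟨p.1, refl_mem_uniformity hV, hp⟩
  refine (coverEntropyEntourage_antitone (id : Y → Y) univ hVsub).trans ?_
  unfold coverEntropyEntourage
  calc expGrowthSup (fun n : ℕ => (coverMincard (id : Y → Y) univ V n : ENNReal))
      ≤ expGrowthSup (fun _ : ℕ => ((s.card : ℕ∞) : ENNReal)) :=
        expGrowthSup_monotone fun n => ENat.toENNReal_mono (hcov n).coverMincard_le_card
    _ ≤ expGrowthSup (fun _ : ℕ => (((s.card + 1 : ℕ) : ℕ∞) : ENNReal)) :=
        expGrowthSup_monotone fun n => ENat.toENNReal_mono (by exact_mod_cast Nat.le_succ _)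
    _ = 0 := expGrowthSup_const (by simp) (by simp)

end Pool.Agent.Lib.MP_1073f4_an
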