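import Mathlib

/-!
# The kick function

`theta` is a smooth `1`-periodic function vanishing near the integers (at distance at most `1/4`),
positive on `(1/4, 1/2)` and negative on `(1/2, 3/4)`.
-/

set_option autoImplicit false

namespace Pool.Agent.Lib.MP_1073f4_an

open Set Real

/-- The smooth periodic function giving the direction of the kicks. -/
noncomputable def theta (x : ℝ) : ℝ :=
  Real.smoothTransition (-Real.cos (2 * π * x)) * Real.sin (2 * π * x)

theorem theta_contDiff {n : ℕ∞} : ContDiff ℝ n theta := by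
  unfold theta
  refine ContDiff.mul ?_ ?_
  · exact Real.smoothTransition.contDiff.comp
      ((Real.contDiff_cos.comp (contDiff_const.mul contDiff_id)).neg)
  · exact Real.contDiff_sin.comp (contDiff_const.mul contDiff_id)

theorem theta_continuous : Continuous theta := (theta_contDiff (n := 0)).continuous

theorem theta_add_int (x : ℝ) (k : ℤ) : theta (x + k) = theta x := by
  unfold theta
  have h : 2 * π * (x + k) = 2 * π * x + k * (2 * π) := by ring
  rw [h, Real.cos_add_int_mul_two_pi, Real.sin_add_int_mul_two_pi]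

theorem abs_theta_le (x : ℝ) : |theta x| ≤ 1 := by
  unfold theta
  rw [abs_mul]
  have h1 : |Real.smoothTransition (-Real.cos (2 * π * x))| ≤ 1 := by
    rw [abs_of_nonneg (Real.smoothTransition.nonneg _)]
    exact Real.smoothTransition.le_one _
  exact mul_le_one₀ h1 (abs_nonneg _) (Real.abs_sin_le_one _)

/-- `theta` vanishes at distance at most `1/4` from the integers. -/
theorem theta_eq_zero {x : ℝ} {k : ℤ} (h : |x - k| ≤ 1 / 4) : theta x = 0 := by
  have h0 : theta x = theta (x - k) := by
    rw [← theta_add_int (x - k) k]; congr 1; ring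
  rw [h0]
  unfold theta
  have hcos : 0 ≤ Real.cos (2 * π * (x - k)) := by
    rw [abs_le] at h
    apply Real.cos_nonneg_of_neg_pi_div_two_le_of_le
    · nlinarith [Real.pi_pos, h.1]
    · nlinarith [Real.pi_pos, h.2]
  rw [Real.smoothTransition.zero_of_nonpos (by linarith), zero_mul]

theorem theta_half_sub (δ : ℝ) :
    theta (1 / 2 - δ) = Real.smoothTransition (Real.cos (2 * π * δ)) * Real.sin (2 * π * δ) := by
  unfold theta
  have h : 2 * π * (1 / 2 - δ) = π - 2 * π * δ := by ring
  rw [h, Real.cos_pi_sub, Real.sin_pi_sub, neg_neg]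

theorem theta_half_add (δ : ℝ) : theta (1 / 2 + δ) = - theta (1 / 2 - δ) := by
  have h1 := theta_half_sub δ
  have h2 := theta_half_sub (-δ)
  rw [sub_neg_eq_add] at h2
  rw [h1, h2]
  have h : 2 * π * (-δ) = - (2 * π * δ) := by ring
  rw [h, Real.cos_neg, Real.sin_neg]
  ring

theorem theta_half_sub_pos {δ : ℝ} (h0 : 0 < δ) (h1 : δ < 1 / 4) : 0 < theta (1 / 2 - δ) := by
  rw [theta_half_sub]
  apply mul_pos
  · apply Real.smoothTransition.pos_of_pos
    apply Real.cos_pos_of_mem_Ioo
    constructor <;> nlinarith [Real.pi_pos]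
  · apply Real.sin_pos_of_mem_Ioo
    constructor
    · positivity
    · nlinarith [Real.pi_pos]

theorem theta_half_sub_le {δ : ℝ} (h0 : 0 ≤ δ) : theta (1 / 2 - δ) ≤ 7 * δ := by
  rw [theta_half_sub]
  have h1 : Real.sin (2 * π * δ) ≤ 2 * π * δ := Real.sin_le (by positivity)
  have h2 : (0:ℝ) ≤ 2 * π * δ := by positivity
  have h3 : Real.smoothTransition (Real.cos (2 * π * δ)) * Real.sin (2 * π * δ)
      ≤ |Real.sin (2 * π * δ)| := by
    calc _ ≤ |Real.smoothTransition (Real.cos (2 * π * δ)) * Real.sin (2 * π * δ)| := le_abs_self _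
      _ = Real.smoothTransition (Real.cos (2 * π * δ)) * |Real.sin (2 * π * δ)| := by
          rw [abs_mul, abs_of_nonneg (Real.smoothTransition.nonneg _)]
      _ ≤ 1 * |Real.sin (2 * π * δ)| :=
          mul_le_mul_of_nonneg_right (Real.smoothTransition.le_one _) (abs_nonneg _)
      _ = _ := one_mul _
  have h4 : |Real.sin (2 * π * δ)| ≤ |2 * π * δ| := Real.abs_sin_le_abs
  rw [abs_of_nonneg h2] at h4
  have h5 : 2 * π * δ ≤ 7 * δ := by
    have := Real.pi_lt_d2
    nlinarith
  linarith

/-- Kick amplitudes are bounded below on compact ranges. -/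
theorem exists_theta_lower {α β : ℝ} (h0 : 0 < α) (h1 : β < 1 / 4) :
    ∃ c : ℝ, 0 < c ∧ ∀ δ, α ≤ δ → δ ≤ β → c ≤ theta (1 / 2 - δ) := by
  rcases lt_or_ge β α with hlt | hle
  · exact ⟨1, one_pos, fun δ ha hb => absurd (ha.trans hb) (not_le.2 hlt)⟩
  · obtain ⟨δ₀, hδ₀, hmin⟩ := isCompact_Icc.exists_isMinOn (nonempty_Icc.2 hle)
      (f := fun δ : ℝ => theta (1 / 2 - δ))
      ((theta_continuous.comp (continuous_const.sub continuous_id)).continuousOn)
    refine ⟨theta (1 / 2 - δ₀), theta_half_sub_pos (h0.trans_le hδ₀.1) (hδ₀.2.trans_lt h1), ?_⟩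
    intro δ ha hb
    exact hmin ⟨ha, hb⟩

end Pool.Agent.Lib.MP_1073f4_an
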