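import Mathlib
import Pool.Agent.Lib.MP_1073f4_an.Theta
import Pool.Agent.Lib.MP_1073f4_an.Entropy

/-!
# The skew product (lifted to `ℝ^ι`) and its coverings
-/

set_option autoImplicit false

namespace Pool.Agent.Lib.MP_1073f4_an

open Set

variable {ι : Type*} [DecidableEq ι]

/-- The lift of the skew product: coordinate `i0` is kicked by `ρ (v i0) * theta (v i1)`, all the
other coordinates are multiplied by `8`. -/
noncomputable def skew (i0 i1 : ι) (ρ : ℝ → ℝ) (v : ι → ℝ) : ι → ℝ :=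
  fun i => if i = i0 then v i0 + ρ (v i0) * theta (v i1) else 8 * v i

/-- Congruence modulo integer vectors. -/
def Eqv (v w : ι → ℝ) : Prop := ∀ i, ∃ k : ℤ, v i = w i + k

omit [DecidableEq ι] in
theorem Eqv.refl (v : ι → ℝ) : Eqv v v := fun i => ⟨0, by simp⟩

omit [DecidableEq ι] in
theorem Eqv.symm {v w : ι → ℝ} (h : Eqv v w) : Eqv w v := fun i => by
  obtain ⟨k, hk⟩ := h i
  exact ⟨-k, by rw [hk]; push_cast; ring⟩

omit [DecidableEq ι] in
theorem Eqv.trans {u v w : ι → ℝ} (h : Eqv u v) (h' : Eqv v w) : Eqv u w := fun i => by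
  obtain ⟨k, hk⟩ := h i
  obtain ⟨l, hl⟩ := h' i
  exact ⟨l + k, by rw [hk, hl]; push_cast; ring⟩

/-- The hypotheses on the kick size. -/
structure Kick (ρ : ℝ → ℝ) : Prop where
  nonneg : ∀ y, 0 ≤ ρ y
  le_one : ∀ y, ρ y ≤ 1
  lip : ∀ y y', |ρ y - ρ y'| ≤ 1 / 2 * |y - y'|
  per : ∀ (y : ℝ) (k : ℤ), ρ (y + k) = ρ y

theorem Kick.continuous {ρ : ℝ → ℝ} (h : Kick ρ) : Continuous ρ := by
  have : LipschitzWith (1 / 2) ρ := by
    apply LipschitzWith.of_dist_le_mul
    intro x y
    rw [Real.dist_eq, Real.dist_eq]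
    simpa using h.lip x y
  exact this.continuous

variable {i0 i1 : ι} {ρ : ℝ → ℝ}

theorem Eqv.skew (hρ : Kick ρ) {v w : ι → ℝ} (h : Eqv v w) :
    Eqv (skew i0 i1 ρ v) (skew i0 i1 ρ w) := by
  intro i
  unfold Pool.Agent.Lib.MP_1073f4_an.skew
  by_cases hi : i = i0
  · subst hi
    obtain ⟨k, hk⟩ := h i
    obtain ⟨l, hl⟩ := h i1
    refine ⟨k, ?_⟩
    simp only [if_true]
    rw [hk, hl, hρ.per, theta_add_int]
    ring
  · obtain ⟨k, hk⟩ := h i
    refine ⟨8 * k, ?_⟩
    simp only [if_neg hi]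
    rw [hk]; push_cast; ring

theorem Eqv.skew_iter (hρ : Kick ρ) {v w : ι → ℝ} (h : Eqv v w) (m : ℕ) :
    Eqv ((Pool.Agent.Lib.MP_1073f4_an.skew i0 i1 ρ)^[m] v)
      ((Pool.Agent.Lib.MP_1073f4_an.skew i0 i1 ρ)^[m] w) := by
  induction m with
  | zero => simpa using h
  | succ m ih =>
    rw [Function.iterate_succ_apply', Function.iterate_succ_apply']
    exact ih.skew hρ

/-- The fibre coordinate of the iterates of the skew product. -/
noncomputable def fib (ρ : ℝ → ℝ) : ℕ → ℝ → ℝ → ℝ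
  | 0, y, _ => y
  | (r + 1), y, x => fib ρ r y x + ρ (fib ρ r y x) * theta (8 ^ r * x)

theorem skew_iter (hne : i1 ≠ i0) (m : ℕ) (w : ι → ℝ) :
    (skew i0 i1 ρ)^[m] w =
      fun i => if i = i0 then fib ρ m (w i0) (w i1) else 8 ^ m * w i := by
  induction m with
  | zero =>
    funext i
    simp only [Function.iterate_zero, id_eq, fib, pow_zero, one_mul]
    by_cases hi : i = i0
    · rw [if_pos hi, hi]
    · rw [if_neg hi]
  | succ m ih =>
    rw [Function.iterate_succ_apply', ih]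
    funext i
    unfold skew
    by_cases hi : i = i0
    · simp only [if_pos hi, if_true, if_neg hne, fib]
    · simp only [if_neg hi]
      ring

theorem fib_continuous (hρ : Kick ρ) (m : ℕ) :
    Continuous fun p : ℝ × ℝ => fib ρ m p.1 p.2 := by
  induction m with
  | zero => simp only [fib]; exact continuous_fst
  | succ m ih =>
    simp only [fib]
    exact ih.add ((hρ.continuous.comp ih).mul
      (theta_continuous.comp (continuous_const.mul continuous_snd)))

theorem fib_strictMono (hρ : Kick ρ) (m : ℕ) (x : ℝ) : StrictMono fun y => fib ρ m y x := by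
  induction m with
  | zero => simp only [fib]; exact strictMono_id
  | succ m ih =>
    intro y y' hy
    have h1 := ih hy
    simp only at h1
    simp only [fib]
    set a := fib ρ m y x
    set b := fib ρ m y' x
    set t := theta (8 ^ m * x)
    have ht : |t| ≤ 1 := abs_theta_le _
    have h2 := hρ.lip a b
    have h3 : |(ρ a - ρ b) * t| ≤ 1 / 2 * |a - b| := by
      rw [abs_mul]
      calc |ρ a - ρ b| * |t| ≤ |ρ a - ρ b| * 1 :=
            mul_le_mul_of_nonneg_left ht (abs_nonneg _)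
        _ ≤ _ := by rw [mul_one]; exact h2
    have h4 : |a - b| = b - a := by rw [abs_sub_comm, abs_of_pos (sub_pos.2 h1)]
    rw [h4] at h3
    have h5 := le_of_abs_le h3
    nlinarith

/-- `ρ` is positive between `a` and `b`. -/
def Conn (ρ : ℝ → ℝ) (a b : ℝ) : Prop := ∀ y ∈ uIcc a b, 0 < ρ y

theorem Conn.symm {a b : ℝ} (h : Conn ρ a b) : Conn ρ b a := by
  unfold Conn at *
  rwa [uIcc_comm]

theorem Conn.trans {a b c : ℝ} (h : Conn ρ a b) (h' : Conn ρ b c) : Conn ρ a c := by
  intro y hy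
  rcases uIcc_subset_uIcc_union_uIcc (b := b) hy with h1 | h1
  · exact h y h1
  · exact h' y h1

theorem Conn.left {a b : ℝ} (h : Conn ρ a b) : 0 < ρ a := h a left_mem_uIcc

theorem Conn.right {a b : ℝ} (h : Conn ρ a b) : 0 < ρ b := h b right_mem_uIcc

theorem conn_of_dist (hρ : Kick ρ) {a b : ℝ} (ha : 0 < ρ a) (hab : |b - a| ≤ ρ a) :
    Conn ρ a b := by
  intro y hy
  have h1 : |y - a| ≤ |b - a| := abs_sub_left_of_mem_uIcc hy
  have h2 := hρ.lip a y
  rw [abs_sub_comm a y] at h2
  have h3 := le_of_abs_le h2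
  linarith

theorem fib_conn (hρ : Kick ρ) (m : ℕ) (y x : ℝ) (hy : 0 < ρ y) : Conn ρ y (fib ρ m y x) := by
  induction m with
  | zero =>
    simp only [fib]
    intro z hz
    rw [uIcc_self, mem_singleton_iff] at hz
    rwa [hz]
  | succ m ih =>
    simp only [fib]
    refine ih.trans (conn_of_dist hρ ih.right ?_)
    rw [add_sub_cancel_left, abs_mul, abs_of_nonneg (hρ.nonneg _)]
    exact mul_le_of_le_one_right (hρ.nonneg _) (abs_theta_le _)

theorem fib_add_of_zero {r s : ℕ} {y x : ℝ} (h : ∀ j, r ≤ j → j < r + s → theta (8 ^ j * x) = 0) :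
    fib ρ (r + s) y x = fib ρ r y x := by
  induction s with
  | zero => simp
  | succ s ih =>
    rw [← add_assoc]
    simp only [fib]
    rw [h (r + s) (by omega) (by omega), ih fun j h1 h2 => h j h1 (by omega)]
    simp

end Pool.Agent.Lib.MP_1073f4_an
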