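import Mathlib
import Pool.Agent.Lib.MP_1073f4_an.Skew

/-!
# Covering relations for the skew product
-/

set_option autoImplicit false

namespace Pool.Agent.Lib.MP_1073f4_an

open Set

variable {ι : Type*} [DecidableEq ι]

/-- Modulo integer vectors, `m` iterates of the slab over `[a, b]` cover the slab over
`[a', b']`. -/
def Cov (i0 i1 : ι) (ρ : ℝ → ℝ) (m : ℕ) (a b a' b' : ℝ) : Prop :=
  ∀ v : ι → ℝ, v i0 ∈ Icc a' b' →
    ∃ w : ι → ℝ, w i0 ∈ Icc a b ∧ Eqv ((skew i0 i1 ρ)^[m] w) v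

variable {i0 i1 : ι} {ρ : ℝ → ℝ}

theorem Cov.comp (hρ : Kick ρ) {m m' : ℕ} {a b a' b' a'' b'' : ℝ}
    (h : Cov i0 i1 ρ m a b a' b') (h' : Cov i0 i1 ρ m' a' b' a'' b'') :
    Cov i0 i1 ρ (m' + m) a b a'' b'' := by
  intro v hv
  obtain ⟨w', hw', he'⟩ := h' v hv
  obtain ⟨w, hw, he⟩ := h w' hw'
  refine ⟨w, hw, ?_⟩
  rw [Function.iterate_add_apply]
  exact (he.skew_iter hρ m').trans he'

theorem Cov.mono {m : ℕ} {a b a' b' c d c' d' : ℝ} (h : Cov i0 i1 ρ m a b a' b')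
    (h1 : Icc a b ⊆ Icc c d) (h2 : Icc c' d' ⊆ Icc a' b') : Cov i0 i1 ρ m c d c' d' := by
  intro v hv
  obtain ⟨w, hw, he⟩ := h v (h2 hv)
  exact ⟨w, h1 hw, he⟩

/-- Pointwise version of the zero words: the slab point can be pulled back without any kick. -/
theorem zero_word (hne : i1 ≠ i0) (m : ℕ) (v : ι → ℝ) :
    ∃ w : ι → ℝ, w i0 = v i0 ∧ Eqv ((skew i0 i1 ρ)^[m] w) v := by
  refine ⟨fun i => if i = i0 then v i0 else Int.fract (v i) / 8 ^ m, by simp, ?_⟩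
  rw [skew_iter hne]
  simp only [if_true, if_neg hne]
  have h0 : fib ρ m (v i0) (Int.fract (v i1) / 8 ^ m) = v i0 := by
    have := fib_add_of_zero (ρ := ρ) (r := 0) (s := m) (y := v i0)
      (x := Int.fract (v i1) / 8 ^ m) ?_
    · simpa [fib] using this
    · intro j _ hj
      rw [zero_add] at hj
      apply theta_eq_zero (k := 0)
      have h1 : (0:ℝ) ≤ Int.fract (v i1) := Int.fract_nonneg _
      have h2 : Int.fract (v i1) < 1 := Int.fract_lt_one _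
      have h8 : (0:ℝ) < 8 ^ m := by positivity
      have h3 : (8:ℝ) ^ j * 8 ≤ 8 ^ m := by
        rw [← pow_succ]
        exact pow_le_pow_right₀ (by norm_num) hj
      rw [Int.cast_zero, sub_zero, abs_of_nonneg (by positivity), mul_div_assoc',
        div_le_iff₀ h8]
      have h8j : (0:ℝ) < 8 ^ j := by positivity
      nlinarith
  intro i
  by_cases hi : i = i0
  · subst hi
    exact ⟨0, by simp [h0]⟩
  · refine ⟨-⌊v i⌋, ?_⟩
    simp only [if_neg hi]
    rw [mul_div_cancel₀ _ (by positivity), Int.fract]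
    push_cast; ring

theorem cov_zero (hne : i1 ≠ i0) (m : ℕ) (a b : ℝ) : Cov i0 i1 ρ m a b a b := by
  intro v hv
  obtain ⟨w, hw, he⟩ := zero_word (ρ := ρ) hne m v
  exact ⟨w, by rw [hw]; exact hv, he⟩

/-- The kick words: a single kick of amplitude `theta (1 / 2 - s * δ)` with
`δ ∈ [8 ^ (-(r+1)), 2 * 8 ^ (-(r+1))]`, followed by no kicks, `s = ± 1`. -/
theorem kick_word (hne : i1 ≠ i0) (r : ℕ) (s : ℤ) (hs : s * s = 1) (v : ι → ℝ) :
    ∃ δ : ℝ, 1 / 8 ^ (r + 1) ≤ δ ∧ δ ≤ 2 / 8 ^ (r + 1) ∧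
      ∀ y : ℝ, y + ρ y * theta (1 / 2 - s * δ) = v i0 →
        ∃ w : ι → ℝ, w i0 = y ∧ Eqv ((skew i0 i1 ρ)^[r + 1] w) v := by
  have h8 : (0:ℝ) < 8 ^ (r + 1) := by positivity
  set φ : ℝ := Int.fract (-(s * v i1)) with hφ
  have hφ0 : 0 ≤ φ := Int.fract_nonneg _
  have hφ1 : φ < 1 := Int.fract_lt_one _
  set δ : ℝ := (1 + φ) / 8 ^ (r + 1) with hδ
  have hδm : 8 ^ (r + 1) * δ = 1 + φ := by rw [hδ]; field_simp
  have hδpos : 0 < δ := by rw [hδ]; positivity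
  have hsR : (s : ℝ) * s = 1 := by exact_mod_cast hs
  have hsabs : |(s : ℝ)| = 1 := by
    have h1 : |(s:ℝ)| * |(s:ℝ)| = 1 := by rw [← abs_mul, hsR, abs_one]
    nlinarith [abs_nonneg (s:ℝ)]
  refine ⟨δ, ?_, ?_, ?_⟩
  · rw [hδ]; gcongr; linarith
  · rw [hδ]; gcongr; linarith
  intro y hy
  refine ⟨fun i => if i = i0 then y else if i = i1 then 1 / 2 - s * δ
    else Int.fract (v i) / 8 ^ (r + 1), by simp, ?_⟩
  rw [skew_iter hne]
  simp only [if_true, if_neg hne]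
  -- the fibre coordinate
  have hfib : fib ρ (r + 1) y (1 / 2 - s * δ) = v i0 := by
    rw [add_comm r 1, fib_add_of_zero]
    · simp only [fib, pow_zero, one_mul]
      exact hy
    · intro j hj1 hj2
      -- `8 ^ j / 2` is an integer and `8 ^ j * δ ≤ 1 / 4`
      obtain ⟨j', rfl⟩ : ∃ j', j = j' + 1 := ⟨j - 1, by omega⟩
      apply theta_eq_zero (k := 4 * 8 ^ j')
      have h1 : (8:ℝ) ^ (j' + 1) * (1 / 2 - s * δ) - ((4 * 8 ^ j' : ℤ) : ℝ)
          = - (s * (8 ^ (j' + 1) * δ)) := by push_cast; ring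
      rw [h1, abs_neg, abs_mul, hsabs, one_mul, abs_of_pos (by positivity)]
      have h2 : (8:ℝ) ^ (j' + 1) * 8 ≤ 8 ^ (r + 1) := by
        rw [← pow_succ]
        exact pow_le_pow_right₀ (by norm_num) (by omega)
      have h3 : (8:ℝ) ^ (j' + 1) * 8 * δ ≤ 2 := by
        calc (8:ℝ) ^ (j' + 1) * 8 * δ ≤ 8 ^ (r + 1) * δ := by gcongr
          _ = 1 + φ := hδm
          _ ≤ 2 := by linarith
      linarith
  intro i
  by_cases hi : i = i0
  · subst hi
    refine ⟨0, ?_⟩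
    simp only [if_true]
    rw [hfib, Int.cast_zero, add_zero]
  · simp only [if_neg hi]
    by_cases hi1 : i = i1
    · subst hi1
      simp only [if_true]
      refine ⟨4 * 8 ^ r - s + s * ⌊-(s * v i)⌋, ?_⟩
      have h1 : (8:ℝ) ^ (r + 1) * (1 / 2 - s * δ) = 4 * 8 ^ r - s * (8 ^ (r + 1) * δ) := by
        ring
      rw [h1, hδm, hφ, Int.fract]
      push_cast
      have : (s:ℝ) * (s * v i) = v i := by rw [← mul_assoc, hsR, one_mul]
      linear_combination this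
    · simp only [if_neg hi1]
      refine ⟨-⌊v i⌋, ?_⟩
      rw [mul_div_cancel₀ _ (by positivity), Int.fract]
      push_cast; ring

theorem cov_up (hne : i1 ≠ i0) (hρ : Kick ρ) {r : ℕ} {c₁ c₂ a b : ℝ} (hab : c₂ ≤ b - a)
    (h0 : 0 ≤ c₂)
    (hc : ∀ δ : ℝ, 1 / 8 ^ (r + 1) ≤ δ → δ ≤ 2 / 8 ^ (r + 1) →
      c₁ ≤ theta (1 / 2 - δ) ∧ 0 ≤ theta (1 / 2 - δ) ∧ theta (1 / 2 - δ) ≤ c₂) :
    Cov i0 i1 ρ (r + 1) a b a (b + c₁ * ρ b) := by
  intro v hv
  rcases le_or_gt (v i0) b with hle | hlt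
  · obtain ⟨w, hw, he⟩ := zero_word (ρ := ρ) hne (r + 1) v
    exact ⟨w, by rw [hw]; exact ⟨hv.1, hle⟩, he⟩
  · obtain ⟨δ, hδ1, hδ2, hw⟩ := kick_word (ρ := ρ) hne r 1 (by norm_num) v
    simp only [Int.cast_one, one_mul] at hw
    obtain ⟨h1, h2, h3⟩ := hc δ hδ1 hδ2
    set κ := theta (1 / 2 - δ)
    have hab' : a ≤ b := by linarith
    have hcont : ContinuousOn (fun t => t + ρ t * κ) (Icc a b) :=
      (continuous_id.add (hρ.continuous.mul continuous_const)).continuousOn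
    have hmem : v i0 ∈ Icc (a + ρ a * κ) (b + ρ b * κ) := by
      constructor
      · have := mul_le_mul (hρ.le_one a) h3 h2 zero_le_one
        linarith
      · have := mul_le_mul_of_nonneg_left h1 (hρ.nonneg b)
        have h5 := hv.2
        linarith
    obtain ⟨y, hy, hyv⟩ := intermediate_value_Icc hab' hcont hmem
    obtain ⟨w, hw0, he⟩ := hw y hyv
    exact ⟨w, by rw [hw0]; exact hy, he⟩

theorem cov_down (hne : i1 ≠ i0) (hρ : Kick ρ) {r : ℕ} {c₁ c₂ a b : ℝ} (hab : c₂ ≤ b - a)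
    (h0 : 0 ≤ c₂)
    (hc : ∀ δ : ℝ, 1 / 8 ^ (r + 1) ≤ δ → δ ≤ 2 / 8 ^ (r + 1) →
      c₁ ≤ theta (1 / 2 - δ) ∧ 0 ≤ theta (1 / 2 - δ) ∧ theta (1 / 2 - δ) ≤ c₂) :
    Cov i0 i1 ρ (r + 1) a b (a - c₁ * ρ a) b := by
  intro v hv
  rcases le_or_gt a (v i0) with hle | hlt
  · obtain ⟨w, hw, he⟩ := zero_word (ρ := ρ) hne (r + 1) v
    exact ⟨w, by rw [hw]; exact ⟨hle, hv.2⟩, he⟩
  · obtain ⟨δ, hδ1, hδ2, hw⟩ := kick_word (ρ := ρ) hne r (-1) (by norm_num) v
    have hth : theta (1 / 2 - ((-1 : ℤ) : ℝ) * δ) = - theta (1 / 2 - δ) := by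
      rw [← theta_half_add]; congr 1; push_cast; ring
    rw [hth] at hw
    obtain ⟨h1, h2, h3⟩ := hc δ hδ1 hδ2
    set κ := theta (1 / 2 - δ)
    have hab' : a ≤ b := by linarith
    have hcont : ContinuousOn (fun t => t + ρ t * -κ) (Icc a b) :=
      (continuous_id.add (hρ.continuous.mul continuous_const)).continuousOn
    have hmem : v i0 ∈ Icc (a + ρ a * -κ) (b + ρ b * -κ) := by
      constructor
      · have := mul_le_mul_of_nonneg_left h1 (hρ.nonneg a)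
        have h5 := hv.1
        linarith
      · have := mul_le_mul (hρ.le_one b) h3 h2 zero_le_one
        linarith
    obtain ⟨y, hy, hyv⟩ := intermediate_value_Icc hab' hcont hmem
    obtain ⟨w, hw0, he⟩ := hw y hyv
    exact ⟨w, by rw [hw0]; exact hy, he⟩

/-- Growing an interval inside a component of `{ρ > 0}`. -/
theorem cov_grow (hne : i1 ≠ i0) (hρ : Kick ρ) {a b a' b' : ℝ} (hab : a < b) (ha : a' ≤ a)
    (hb : b ≤ b') (hpos : ∀ y ∈ Icc a' b', 0 < ρ y) :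
    ∃ m, Cov i0 i1 ρ m a b a' b' := by
  -- choose `r`
  obtain ⟨r, hr⟩ : ∃ r : ℕ, 14 / 8 ^ (r + 1) ≤ b - a ∧ (2:ℝ) / 8 ^ (r + 1) < 1 / 4 := by
    have h1 : Filter.Tendsto (fun r : ℕ => (14:ℝ) / 8 ^ (r + 1)) Filter.atTop (nhds 0) :=
      (tendsto_const_nhds.div_atTop
        ((tendsto_pow_atTop_atTop_of_one_lt (by norm_num : (1:ℝ) < 8)).comp
          (Filter.tendsto_add_atTop_nat 1)))
    obtain ⟨r, h2, h3⟩ := ((h1.eventually (gt_mem_nhds (sub_pos.2 hab))).and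
      (h1.eventually (gt_mem_nhds (by norm_num : (0:ℝ) < 1 / 4)))).exists
    refine ⟨r, h2.le, lt_of_le_of_lt ?_ h3⟩
    gcongr
    norm_num
  have h8 : (0:ℝ) < 8 ^ (r + 1) := by positivity
  obtain ⟨c₁, hc₁, hlow⟩ := exists_theta_lower (α := 1 / 8 ^ (r + 1)) (β := 2 / 8 ^ (r + 1))
    (by positivity) hr.2
  set c₂ : ℝ := 14 / 8 ^ (r + 1) with hc₂
  have hc₂0 : 0 ≤ c₂ := by positivity
  have hc : ∀ δ : ℝ, 1 / 8 ^ (r + 1) ≤ δ → δ ≤ 2 / 8 ^ (r + 1) →
      c₁ ≤ theta (1 / 2 - δ) ∧ 0 ≤ theta (1 / 2 - δ) ∧ theta (1 / 2 - δ) ≤ c₂ := by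
    intro δ h1 h2
    have h3 := hlow δ h1 h2
    refine ⟨h3, hc₁.le.trans h3, (theta_half_sub_le (le_trans (by positivity) h1)).trans ?_⟩
    calc 7 * δ ≤ 7 * (2 / 8 ^ (r + 1)) := by gcongr
      _ = c₂ := by rw [hc₂]; ring
  -- lower bound of `ρ`
  obtain ⟨y₀, hy₀, hmin⟩ := isCompact_Icc.exists_isMinOn
    (nonempty_Icc.2 (ha.trans (hab.le.trans hb))) hρ.continuous.continuousOn
  set ρ₀ := ρ y₀ with hρ₀
  have hρ₀pos : 0 < ρ₀ := hpos y₀ hy₀
  have hρ₀min : ∀ y ∈ Icc a' b', ρ₀ ≤ ρ y := fun y hy => hmin hy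
  -- upward growth
  have hup : ∀ k : ℕ, Cov i0 i1 ρ (k * (r + 1)) a b a (min b' (b + k * (c₁ * ρ₀))) := by
    intro k
    induction k with
    | zero =>
      simp only [Nat.cast_zero, zero_mul, add_zero, min_eq_right hb]
      exact cov_zero hne 0 a b
    | succ k ih =>
      set bk := min b' (b + k * (c₁ * ρ₀)) with hbk
      have hbbk : b ≤ bk := le_min hb (by nlinarith [mul_pos hc₁ hρ₀pos, (Nat.cast_nonneg k : (0:ℝ) ≤ k)])
      have hbk' : bk ≤ b' := min_le_left _ _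
      have hstep := cov_up (i0 := i0) (i1 := i1) hne hρ (a := a) (b := bk) (r := r)
        (by linarith [hr.1]) hc₂0 hc
      have hcomp := ih.comp hρ hstep
      have hm : (r + 1) + k * (r + 1) = (k + 1) * (r + 1) := by ring
      rw [hm] at hcomp
      refine hcomp.mono le_rfl (Icc_subset_Icc le_rfl ?_)
      have h1 : c₁ * ρ₀ ≤ c₁ * ρ bk :=
        mul_le_mul_of_nonneg_left (hρ₀min bk ⟨by linarith, hbk'⟩) hc₁.le
      rcases min_choice b' (b + k * (c₁ * ρ₀)) with h2 | h2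
      · rw [← hbk] at h2
        refine (min_le_left _ _).trans ?_
        have : 0 < c₁ * ρ bk := lt_of_lt_of_le (by positivity) h1
        linarith
      · rw [← hbk] at h2
        refine (min_le_right _ _).trans ?_
        rw [h2] at h1 ⊢
        push_cast
        linarith
  obtain ⟨k, hk⟩ : ∃ k : ℕ, b' - b ≤ k * (c₁ * ρ₀) := by
    obtain ⟨k, hk⟩ := exists_nat_ge ((b' - b) / (c₁ * ρ₀))
    exact ⟨k, (div_le_iff₀ (by positivity)).1 hk⟩
  have hupk := hup k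
  rw [min_eq_left (by linarith)] at hupk
  -- downward growth
  have hdown : ∀ k : ℕ, Cov i0 i1 ρ (k * (r + 1)) a b' (max a' (a - k * (c₁ * ρ₀))) b' := by
    intro k
    induction k with
    | zero =>
      simp only [Nat.cast_zero, zero_mul, sub_zero, max_eq_right ha]
      exact cov_zero hne 0 a b'
    | succ k ih =>
      set ak := max a' (a - k * (c₁ * ρ₀)) with hak
      have haak : ak ≤ a := max_le ha (by nlinarith [mul_pos hc₁ hρ₀pos, (Nat.cast_nonneg k : (0:ℝ) ≤ k)])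
      have hak' : a' ≤ ak := le_max_left _ _
      have hstep := cov_down (i0 := i0) (i1 := i1) hne hρ (a := ak) (b := b') (r := r)
        (by linarith [hr.1]) hc₂0 hc
      have hcomp := ih.comp hρ hstep
      have hm : (r + 1) + k * (r + 1) = (k + 1) * (r + 1) := by ring
      rw [hm] at hcomp
      refine hcomp.mono le_rfl (Icc_subset_Icc ?_ le_rfl)
      have h1 : c₁ * ρ₀ ≤ c₁ * ρ ak :=
        mul_le_mul_of_nonneg_left (hρ₀min ak ⟨hak', by linarith⟩) hc₁.le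
      rcases max_choice a' (a - k * (c₁ * ρ₀)) with h2 | h2
      · rw [← hak] at h2
        refine le_trans ?_ (le_max_left _ _)
        have : 0 < c₁ * ρ ak := lt_of_lt_of_le (by positivity) h1
        linarith
      · rw [← hak] at h2
        refine le_trans ?_ (le_max_right _ _)
        rw [h2] at h1 ⊢
        push_cast
        linarith
  obtain ⟨l, hl⟩ : ∃ l : ℕ, a - a' ≤ l * (c₁ * ρ₀) := by
    obtain ⟨l, hl⟩ := exists_nat_ge ((a - a') / (c₁ * ρ₀))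
    exact ⟨l, (div_le_iff₀ (by positivity)).1 hl⟩
  have hdownl := hdown l
  rw [max_eq_left (by linarith)] at hdownl
  exact ⟨_, hupk.comp hρ hdownl⟩

end Pool.Agent.Lib.MP_1073f4_an
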