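import Mathlib

/-!
# Smooth self-maps of the torus and completely positive entropy: definitions
-/

set_option autoImplicit false

namespace Pool.Agent.Lib.MP_1073f4_an

/-- The `n`-torus `(ℝ / ℤ) ^ n`, with its product topology. -/
abbrev Torus (n : ℕ) : Type := Fin n → UnitAddCircle

/-- The quotient map `ℝ ^ n → (ℝ / ℤ) ^ n`. -/
def toTorus {n : ℕ} (v : Fin n → ℝ) : Torus n := fun i => (v i : UnitAddCircle)

/-- A self-map `f` of the torus is of class `C ^ k` (`0 ≤ k ≤ ∞`) if it lifts to a map
`F : ℝ ^ n → ℝ ^ n` of class `C ^ k`. -/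
def IsCk {n : ℕ} (k : ℕ∞) (f : Torus n → Torus n) : Prop :=
  ∃ F : (Fin n → ℝ) → (Fin n → ℝ), ContDiff ℝ k F ∧ ∀ v, f (toTorus v) = toTorus (F v)

/-- The space `C ^ k (𝕋 ^ n, 𝕋 ^ n)` of `C ^ k` self-maps of the torus, as a subspace of the space
`C(𝕋 ^ n, 𝕋 ^ n)` of continuous maps with the topology of uniform convergence (the compact-open
topology). -/
abbrev CkMaps (n : ℕ) (k : ℕ∞) : Type := {f : C(Torus n, Torus n) // IsCk k f}

/-- `f` has completely positive entropy: every non-trivial factor `g : Y → Y` of `f` (`Y` compact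
metric, `π : X → Y` a continuous surjection with `π ∘ f = g ∘ π`, `Y` not a single point) has
positive topological entropy. `Dynamics.coverEntropy g Set.univ` is Mathlib's (Bowen-Dinaburg)
topological entropy of `g`. -/
def HasCPE {X : Type} [TopologicalSpace X] (f : X → X) : Prop :=
  ∀ (Y : Type) [MetricSpace Y] [CompactSpace Y] (g : Y → Y) (π : X → Y),
    Continuous g → Continuous π → Function.Surjective π → (∀ x, π (f x) = g (π x)) →
    Nontrivial Y → 0 < Dynamics.coverEntropy g Set.univ

end Pool.Agent.Lib.MP_1073f4_an
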