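import Mathlib
import Pool.Agent.Lib.MP_1073f4_an.Cover

/-!
# Zero entropy factors of the skew product
-/

set_option autoImplicit false

namespace Pool.Agent.Lib.MP_1073f4_an

open Set

variable {ι : Type*} [DecidableEq ι] [Fintype ι]

variable {i0 i1 : ι} {ρ : ℝ → ℝ}

/-- Every open set covers a full slab, after some time. -/
theorem init_cover (hne : i1 ≠ i0) (hρ : Kick ρ) {U : Set (ι → ℝ)} (hU : IsOpen U)
    {v : ι → ℝ} (hv : v ∈ U) (hpos : 0 < ρ (v i0)) :
    ∃ (m : ℕ) (a b : ℝ), a < b ∧ Conn ρ (v i0) a ∧ Conn ρ (v i0) b ∧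
      ∀ u : ι → ℝ, u i0 ∈ Icc a b → ∃ w ∈ U, Eqv ((skew i0 i1 ρ)^[m] w) u := by
  obtain ⟨ε, hε, hball⟩ := Metric.isOpen_iff.1 hU v hv
  have hlim : Filter.Tendsto (fun r : ℕ => (1:ℝ) / 8 ^ r) Filter.atTop (nhds 0) :=
    (tendsto_const_nhds.div_atTop (tendsto_pow_atTop_atTop_of_one_lt (by norm_num : (1:ℝ) < 8)))
  obtain ⟨r, hr⟩ := (hlim.eventually (gt_mem_nhds (half_pos hε))).exists
  set x₀ : ℝ := ⌊(8:ℝ) ^ r * v i1⌋ / 8 ^ r with hx₀
  have h8r : (0:ℝ) < 8 ^ r := by positivity
  have hx₀r : (8:ℝ) ^ r * x₀ = ⌊(8:ℝ) ^ r * v i1⌋ := by rw [hx₀]; field_simp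
  have hx₀v : |x₀ - v i1| < ε / 2 := by
    refine lt_of_le_of_lt ?_ hr
    have h1 : (8:ℝ) ^ r * (x₀ - v i1) = - Int.fract ((8:ℝ) ^ r * v i1) := by
      rw [mul_sub, hx₀r, Int.fract]; ring
    have h2 : |(8:ℝ) ^ r * (x₀ - v i1)| ≤ 1 := by
      rw [h1, abs_neg, abs_of_nonneg (Int.fract_nonneg _)]
      exact (Int.fract_lt_one _).le
    rw [abs_mul, abs_of_pos h8r] at h2
    rw [le_div_iff₀ h8r]
    linarith
  set y₀ := v i0 with hy₀
  set ys := fib ρ r y₀ x₀ with hys
  have hconn : Conn ρ y₀ ys := fib_conn hρ r y₀ x₀ hpos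
  set η := ε / 2 with hη
  have hηpos : 0 < η := half_pos hε
  have ha0 : fib ρ r (y₀ - η) x₀ < ys := fib_strictMono hρ r x₀ (by linarith : y₀ - η < y₀)
  have hb0 : ys < fib ρ r (y₀ + η) x₀ := fib_strictMono hρ r x₀ (by linarith : y₀ < y₀ + η)
  set a0 := fib ρ r (y₀ - η) x₀ with ha0def
  set b0 := fib ρ r (y₀ + η) x₀ with hb0def
  have hysρ : 0 < ρ ys := hconn.right
  set a := max ((a0 + ys) / 2) (ys - ρ ys) with ha
  set b := min ((b0 + ys) / 2) (ys + ρ ys) with hb
  have haa0 : a0 < a := lt_of_lt_of_le (by linarith) (le_max_left _ _)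
  have hays : a < ys := max_lt (by linarith) (by linarith)
  have hbb0 : b < b0 := lt_of_le_of_lt (min_le_left _ _) (by linarith)
  have hysb : ys < b := lt_min (by linarith) (by linarith)
  have hca : Conn ρ ys a := by
    refine conn_of_dist hρ hysρ ?_
    rw [abs_sub_comm, abs_of_pos (by linarith)]
    have := le_max_right ((a0 + ys) / 2) (ys - ρ ys)
    linarith
  have hcb : Conn ρ ys b := by
    refine conn_of_dist hρ hysρ ?_
    rw [abs_of_pos (by linarith)]
    have := min_le_right ((b0 + ys) / 2) (ys + ρ ys)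
    linarith
  have hcontx : ∀ y : ℝ, Continuous fun x : ℝ => fib ρ r y x := fun y =>
    (fib_continuous hρ r).comp (continuous_const.prodMk continuous_id)
  have hconty : ∀ x : ℝ, Continuous fun y : ℝ => fib ρ r y x := fun x =>
    (fib_continuous hρ r).comp (continuous_id.prodMk continuous_const)
  obtain ⟨δ, hδ, hδx⟩ : ∃ δ > 0, ∀ x : ℝ, |x - x₀| < δ →
      fib ρ r (y₀ - η) x < a ∧ b < fib ρ r (y₀ + η) x := by
    have h1 : ∀ᶠ x in nhds x₀, fib ρ r (y₀ - η) x < a :=
      (hcontx (y₀ - η)).continuousAt.eventually (gt_mem_nhds haa0)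
    have h2 : ∀ᶠ x in nhds x₀, b < fib ρ r (y₀ + η) x :=
      (hcontx (y₀ + η)).continuousAt.eventually (lt_mem_nhds hbb0)
    obtain ⟨δ, hδ, h3⟩ := Metric.eventually_nhds_iff.1 (h1.and h2)
    exact ⟨δ, hδ, fun x hx => h3 (by rwa [Real.dist_eq])⟩
  obtain ⟨s, hs1, hs2⟩ : ∃ s : ℕ, (1:ℝ) / 8 ^ (r + s) < η ∧ (1:ℝ) / 8 ^ (r + s) < δ := by
    have h1 : Filter.Tendsto (fun s : ℕ => (1:ℝ) / 8 ^ (r + s)) Filter.atTop (nhds 0) := by
      have := hlim.comp (Filter.tendsto_add_atTop_nat r)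
      refine this.congr fun s => ?_
      simp only [Function.comp_apply]
      rw [add_comm]
    exact ((h1.eventually (gt_mem_nhds hηpos)).and (h1.eventually (gt_mem_nhds hδ))).exists
  refine ⟨r + s, a, b, by linarith, hconn.trans hca, hconn.trans hcb, ?_⟩
  intro u hu
  set m := r + s with hm
  have h8m : (0:ℝ) < 8 ^ m := by positivity
  set x : ℝ := x₀ + Int.fract (u i1 - 8 ^ m * x₀) / 8 ^ m with hx
  have hfr : ∀ t : ℝ, 0 ≤ Int.fract t / 8 ^ m ∧ Int.fract t / 8 ^ m ≤ 1 / 8 ^ m := by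
    intro t
    constructor
    · exact div_nonneg (Int.fract_nonneg _) h8m.le
    · gcongr
      exact (Int.fract_lt_one _).le
  have hxx₀ : |x - x₀| ≤ 1 / 8 ^ m := by
    rw [hx, add_sub_cancel_left, abs_of_nonneg (hfr _).1]
    exact (hfr _).2
  have hxx₀δ := hδx x (lt_of_le_of_lt hxx₀ hs2)
  have hfibm : ∀ y : ℝ, fib ρ m y x = fib ρ r y x := by
    intro y
    rw [hm, fib_add_of_zero]
    intro j hj1 hj2
    obtain ⟨l, rfl⟩ := Nat.exists_eq_add_of_le hj1
    apply theta_eq_zero (k := 8 ^ l * ⌊(8:ℝ) ^ r * v i1⌋)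
    have h1 : (8:ℝ) ^ (r + l) * x - ((8 ^ l * ⌊(8:ℝ) ^ r * v i1⌋ : ℤ) : ℝ)
        = 8 ^ (r + l) * (Int.fract (u i1 - 8 ^ m * x₀) / 8 ^ m) := by
      push_cast
      rw [← hx₀r, hx, pow_add]
      ring
    rw [h1, abs_of_nonneg (mul_nonneg (by positivity) (hfr _).1)]
    have h2 : (8:ℝ) ^ (r + l) * 8 ≤ 8 ^ m := by
      rw [← pow_succ]
      exact pow_le_pow_right₀ (by norm_num) (by omega)
    calc (8:ℝ) ^ (r + l) * (Int.fract (u i1 - 8 ^ m * x₀) / 8 ^ m)
        ≤ 8 ^ (r + l) * (1 / 8 ^ m) := mul_le_mul_of_nonneg_left (hfr _).2 (by positivity)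
      _ ≤ 1 / 4 := by
          rw [mul_one_div, div_le_iff₀ h8m]
          have : (0:ℝ) < 8 ^ (r + l) := by positivity
          linarith
  obtain ⟨y, hy, hyu⟩ := intermediate_value_Icc (by linarith : y₀ - η ≤ y₀ + η)
    (hconty x).continuousOn (show u i0 ∈ Icc (fib ρ r (y₀ - η) x) (fib ρ r (y₀ + η) x) from
      ⟨hxx₀δ.1.le.trans hu.1, hu.2.trans hxx₀δ.2.le⟩)
  simp only at hyu
  refine ⟨fun i => if i = i0 then y else if i = i1 then x
    else v i + Int.fract (u i - 8 ^ m * v i) / 8 ^ m, ?_, ?_⟩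
  · apply hball
    rw [Metric.mem_ball, dist_pi_lt_iff hε]
    intro i
    rw [Real.dist_eq]
    by_cases hi : i = i0
    · simp only [if_pos hi]
      rw [hi, ← hy₀]
      have : |y - y₀| ≤ η := abs_le.2 ⟨by linarith [hy.1], by linarith [hy.2]⟩
      linarith
    · simp only [if_neg hi]
      by_cases hi1 : i = i1
      · simp only [if_pos hi1]
        rw [hi1]
        calc |x - v i1| ≤ |x - x₀| + |x₀ - v i1| := abs_sub_le _ _ _
          _ < η + ε / 2 := by linarith
          _ = ε := by rw [hη]; ring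
      · simp only [if_neg hi1]
        rw [add_sub_cancel_left, abs_of_nonneg (hfr _).1]
        have := (hfr (u i - 8 ^ m * v i)).2
        linarith
  · rw [skew_iter hne]
    simp only [if_true, if_neg hne]
    intro i
    by_cases hi : i = i0
    · refine ⟨0, ?_⟩
      simp only [if_pos hi]
      rw [hfibm, hyu, hi, Int.cast_zero, add_zero]
    · simp only [if_neg hi]
      by_cases hi1 : i = i1
      · simp only [if_pos hi1]
        refine ⟨-⌊u i - 8 ^ m * x₀⌋, ?_⟩
        rw [hx, mul_add, mul_div_cancel₀ _ h8m.ne', Int.fract, hi1]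
        push_cast; ring
      · simp only [if_neg hi1]
        refine ⟨-⌊u i - 8 ^ m * v i⌋, ?_⟩
        rw [mul_add, mul_div_cancel₀ _ h8m.ne', Int.fract]
        push_cast; ring

/-- From an open set meeting a component of `{ρ > 0}`, one covers any compact part of the
component, for all large times. -/
theorem open_cover (hne : i1 ≠ i0) (hρ : Kick ρ) {U : Set (ι → ℝ)} (hU : IsOpen U)
    {v : ι → ℝ} (hv : v ∈ U) {a' b' : ℝ} (hva : a' ≤ v i0) (hvb : v i0 ≤ b')
    (hpos : ∀ y ∈ Icc a' b', 0 < ρ y) :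
    ∃ m : ℕ, ∀ M, m ≤ M → ∀ u : ι → ℝ, u i0 ∈ Icc a' b' →
      ∃ w ∈ U, Eqv ((skew i0 i1 ρ)^[M] w) u := by
  obtain ⟨m₁, a, b, hab, hca, hcb, hcov⟩ := init_cover hne hρ hU hv (hpos _ ⟨hva, hvb⟩)
  have hpos' : ∀ y ∈ Icc (min a a') (max b b'), 0 < ρ y := by
    intro y hy
    rcases le_or_gt y (v i0) with h | h
    · -- `y` is in `[min a a', v i0]`
      rcases le_or_gt a' y with h1 | h1
      · exact hpos y ⟨h1, h.trans hvb⟩
      · have h2 : a ≤ y := by
          rcases min_le_iff.1 hy.1 with h3 | h3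
          · exact h3
          · exact absurd h3 (not_le.2 h1)
        exact hca y (mem_uIcc.2 (Or.inr ⟨h2, h⟩))
    · rcases le_or_gt y b' with h1 | h1
      · exact hpos y ⟨hva.trans h.le, h1⟩
      · have h2 : y ≤ b := by
          rcases le_max_iff.1 hy.2 with h3 | h3
          · exact h3
          · exact absurd h3 (not_le.2 h1)
        exact hcb y (mem_uIcc.2 (Or.inl ⟨h.le, h2⟩))
  obtain ⟨m₂, hm₂⟩ := cov_grow (i0 := i0) (i1 := i1) hne hρ hab (min_le_left a a')
    (le_max_left b b') hpos'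
  refine ⟨m₂ + m₁, fun M hM u hu => ?_⟩
  obtain ⟨l, rfl⟩ := Nat.exists_eq_add_of_le hM
  obtain ⟨w₃, hw₃, he₃⟩ := cov_zero (i0 := i0) (i1 := i1) (ρ := ρ) hne l a' b' u hu
  obtain ⟨w₂, hw₂, he₂⟩ := hm₂ w₃ ⟨(min_le_right _ _).trans hw₃.1, hw₃.2.trans (le_max_right _ _)⟩
  obtain ⟨w₁, hw₁, he₁⟩ := hcov w₂ hw₂
  refine ⟨w₁, hw₁, ?_⟩
  have : m₂ + m₁ + l = l + (m₂ + m₁) := by ring
  rw [this, Function.iterate_add_apply, Function.iterate_add_apply]
  exact (((he₁.skew_iter hρ m₂).trans he₂).skew_iter hρ l).trans he₃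

/-- A zero entropy factor of the skew product identifies all the points over a component of
`{ρ > 0}`. -/
theorem factor_const_on_gap (hne : i1 ≠ i0) (hρ : Kick ρ) {Y : Type*} [MetricSpace Y]
    [CompactSpace Y] {g : Y → Y} {P : (ι → ℝ) → Y} (hP : Continuous P)
    (hPg : ∀ v, P (skew i0 i1 ρ v) = g (P v)) (hPE : ∀ v w, Eqv v w → P v = P w)
    (hent : ¬ 0 < Dynamics.coverEntropy g univ) {v v' : ι → ℝ} (hvv' : Conn ρ (v i0) (v' i0)) :
    P v = P v' := by
  by_contra hPne
  have hdist : 0 < dist (P v) (P v') := dist_pos.2 hPne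
  set d := dist (P v) (P v') / 3 with hd
  have hdpos : 0 < d := by positivity
  set lo := min (v i0) (v' i0) with hlo
  set hi := max (v i0) (v' i0) with hhi
  have hρlo : 0 < ρ lo := hvv' lo ⟨le_rfl, min_le_max⟩
  have hρhi : 0 < ρ hi := hvv' hi ⟨min_le_max, le_rfl⟩
  set a' := lo - ρ lo with ha'
  set b' := hi + ρ hi with hb'
  have hpos : ∀ y ∈ Icc a' b', 0 < ρ y := by
    intro y hy
    rcases lt_or_ge y lo with h1 | h1
    · refine conn_of_dist hρ (b := a') hρlo ?_ y ?_
      · rw [ha', abs_sub_comm, sub_sub_cancel, abs_of_pos hρlo]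
      · exact mem_uIcc.2 (Or.inr ⟨hy.1, h1.le⟩)
    · rcases lt_or_ge hi y with h2 | h2
      · refine conn_of_dist hρ (b := b') hρhi ?_ y ?_
        · rw [hb', add_sub_cancel_left, abs_of_pos hρhi]
        · exact mem_uIcc.2 (Or.inl ⟨h2.le, hy.2⟩)
      · exact hvv' y ⟨h1, h2⟩
  have hva : a' < v i0 := by
    have := min_le_left (v i0) (v' i0)
    linarith
  have hvb : v i0 < b' := by
    have := le_max_left (v i0) (v' i0)
    linarith
  have hva' : a' < v' i0 := by
    have := min_le_right (v i0) (v' i0)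
    linarith
  have hvb' : v' i0 < b' := by
    have := le_max_right (v i0) (v' i0)
    linarith
  set slab : Set (ι → ℝ) := {w | w i0 ∈ Ioo a' b'} with hslab
  have hslabo : IsOpen slab := isOpen_Ioo.preimage (continuous_apply i0)
  set U : Set (ι → ℝ) := P ⁻¹' (Metric.ball (P v) d) ∩ slab with hU
  set U' : Set (ι → ℝ) := P ⁻¹' (Metric.ball (P v') d) ∩ slab with hU'
  have hUo : IsOpen U := (Metric.isOpen_ball.preimage hP).inter hslabo
  have hUo' : IsOpen U' := (Metric.isOpen_ball.preimage hP).inter hslabo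
  have hvU : v ∈ U := ⟨Metric.mem_ball_self hdpos, hva, hvb⟩
  have hvU' : v' ∈ U' := ⟨Metric.mem_ball_self hdpos, hva', hvb'⟩
  obtain ⟨m₁, hm₁⟩ := open_cover (i1 := i1) hne hρ hUo hvU hva.le hvb.le hpos
  obtain ⟨m₂, hm₂⟩ := open_cover (i1 := i1) hne hρ hUo' hvU' hva'.le hvb'.le hpos
  set M := m₁ + m₂ + 1 with hM
  have hM₁ := hm₁ M (by omega)
  have hM₂ := hm₂ M (by omega)
  apply hent
  refine entropy_pos g (Metric.closedBall (P v) d) (Metric.closedBall (P v') d)
    Metric.isClosed_closedBall Metric.isClosed_closedBall ?_ M (by omega) ?_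
  · apply Metric.closedBall_disjoint_closedBall
    rw [hd]; linarith
  · intro N wd
    -- find a point of the cover with the given itinerary
    have key : ∀ (N : ℕ) (wd : Fin N → Bool), ∃ u : ι → ℝ, u i0 ∈ Icc a' b' ∧
        ∀ i : Fin N, P ((skew i0 i1 ρ)^[M * (i : ℕ)] u) ∈
          if wd i = true then Metric.closedBall (P v) d else Metric.closedBall (P v') d := by
      intro N
      induction N with
      | zero => exact fun _ => ⟨v, ⟨hva.le, hvb.le⟩, fun i => i.elim0⟩
      | succ N ih =>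
        intro wd
        obtain ⟨u, hu, hui⟩ := ih (fun i => wd i.succ)
        have hstep : ∃ u' : ι → ℝ, u' i0 ∈ Icc a' b' ∧ (P u' ∈
            if wd 0 = true then Metric.closedBall (P v) d else Metric.closedBall (P v') d) ∧
            Eqv ((skew i0 i1 ρ)^[M] u') u := by
          by_cases hw : wd 0 = true
          · obtain ⟨u', hu', he⟩ := hM₁ u hu
            refine ⟨u', ⟨hu'.2.1.le, hu'.2.2.le⟩, ?_, he⟩
            rw [if_pos hw]
            exact Metric.ball_subset_closedBall hu'.1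
          · obtain ⟨u', hu', he⟩ := hM₂ u hu
            refine ⟨u', ⟨hu'.2.1.le, hu'.2.2.le⟩, ?_, he⟩
            rw [if_neg hw]
            exact Metric.ball_subset_closedBall hu'.1
        obtain ⟨u', hu', hPu', he⟩ := hstep
        refine ⟨u', hu', fun i => ?_⟩
        refine Fin.cases ?_ (fun j => ?_) i
        · simpa using hPu'
        · have h1 : M * ((j.succ : Fin (N + 1)) : ℕ) = M * (j : ℕ) + M := by
            rw [Fin.val_succ]; ring
          rw [h1, Function.iterate_add_apply, hPE _ _ (he.skew_iter hρ (M * (j : ℕ)))]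
          exact hui j
    obtain ⟨u, _, hu⟩ := key N wd
    refine ⟨P u, fun i => ?_⟩
    have hiter : ∀ n : ℕ, g^[n] (P u) = P ((skew i0 i1 ρ)^[n] u) := by
      intro n
      induction n with
      | zero => rfl
      | succ n ih => rw [Function.iterate_succ_apply', ih, ← hPg, Function.iterate_succ_apply']
    rw [hiter]
    exact hu i

/-- If the zero set of `ρ` is countable, every zero entropy factor is trivial. -/
theorem factor_const (hne : i1 ≠ i0) (hρ : Kick ρ) (hc : {y | ρ y = 0}.Countable)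
    {Y : Type*} [MetricSpace Y] [CompactSpace Y] {g : Y → Y} {P : (ι → ℝ) → Y}
    (hP : Continuous P) (hPg : ∀ v, P (skew i0 i1 ρ v) = g (P v))
    (hPE : ∀ v w, Eqv v w → P v = P w)
    (hent : ¬ 0 < Dynamics.coverEntropy g univ) (v v' : ι → ℝ) :
    P v = P v' := by
  have hgap : ∀ {v v' : ι → ℝ}, Conn ρ (v i0) (v' i0) → P v = P v' :=
    fun h => factor_const_on_gap hne hρ hP hPg hPE hent h
  -- the complement of the zero set is dense
  have hdense : Dense {y : ℝ | 0 < ρ y} := by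
    have h1 : Dense ({y : ℝ | ρ y = 0}ᶜ) := hc.dense_compl ℝ
    refine h1.mono fun y hy => lt_of_le_of_ne (hρ.nonneg y) (Ne.symm hy)
  -- `P` only depends on the fibre coordinate
  have hfib : ∀ v : ι → ℝ, P v = P (fun _ => v i0) := by
    intro v
    set F : ℝ → Y := fun y => P (Function.update v i0 y) with hF
    set G : ℝ → Y := fun y => P (fun _ => y) with hG
    have hFc : Continuous F := hP.comp (continuous_const.update i0 continuous_id)
    have hGc : Continuous G := hP.comp (continuous_pi fun _ => continuous_id)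
    have hFG : F = G := by
      refine Continuous.ext_on hdense hFc hGc fun y hy => ?_
      apply hgap
      simp only [Function.update_self]
      intro z hz
      rw [uIcc_self, mem_singleton_iff] at hz
      rwa [hz]
    have := congrFun hFG (v i0)
    simpa [hF, hG] using this
  set κ : ℝ → Y := fun y => P (fun _ => y) with hκ
  have hκc : Continuous κ := hP.comp (continuous_pi fun _ => continuous_id)
  have hrange : (range κ).Countable := by
    have hsub : range κ ⊆ κ '' {y | ρ y = 0} ∪ range (fun q : ℚ => κ q) := by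
      rintro _ ⟨y, rfl⟩
      rcases (hρ.nonneg y).eq_or_lt with h | h
      · exact Or.inl ⟨y, h.symm, rfl⟩
      · right
        obtain ⟨q, hq1, hq2⟩ := exists_rat_btwn (show y < y + ρ y by linarith)
        refine ⟨q, ?_⟩
        apply hgap
        apply Conn.symm
        exact conn_of_dist hρ h (by rw [abs_of_pos (by linarith)]; linarith)
    exact ((hc.image κ).union (countable_range _)).mono hsub
  have hconn : IsPreconnected (range κ) := isPreconnected_range hκc
  have hsub : (range κ).Subsingleton := hrange.isTotallyDisconnected _ subset_rfl hconn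
  rw [hfib v, hfib v']
  exact hsub (mem_range_self _) (mem_range_self _)

end Pool.Agent.Lib.MP_1073f4_an
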