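import Mathlib

/-!
# An analytic subset of the Baire space that is not Borel
-/

set_option autoImplicit false

namespace Pool.Agent.Lib.MP_1073f4_an

open Set MeasureTheory TopologicalSpace

theorem exists_analytic_not_measurable :
    ∃ D : Set (ℕ → ℕ), AnalyticSet D ∧ ¬ MeasurableSet D := by
  classical
  -- a countable basis, with the empty set
  obtain ⟨B, hB0, hBo, hB⟩ : ∃ B : ℕ → Set ((ℕ → ℕ) × (ℕ → ℕ)), B 0 = ∅ ∧ (∀ n, IsOpen (B n)) ∧
      ∀ (U : Set ((ℕ → ℕ) × (ℕ → ℕ))), IsOpen U → ∀ p ∈ U, ∃ n, p ∈ B n ∧ B n ⊆ U := by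
    obtain ⟨b, hbc, -, hb⟩ := exists_countable_basis ((ℕ → ℕ) × (ℕ → ℕ))
    have hne : b.Nonempty := by
      obtain ⟨v, hv, -, -⟩ := hb.exists_subset_of_mem_open (mem_univ (fun _ => 0, fun _ => 0))
        isOpen_univ
      exact ⟨v, hv⟩
    obtain ⟨e, he⟩ := hbc.exists_eq_range hne
    refine ⟨fun n => Nat.casesOn n ∅ e, rfl, ?_, ?_⟩
    · intro n
      cases n with
      | zero => exact isOpen_empty
      | succ n => exact hb.isOpen (he ▸ mem_range_self n)
    · intro U hU p hp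
      obtain ⟨v, hv, hpv, hvU⟩ := hb.exists_subset_of_mem_open hp hU
      rw [he] at hv
      obtain ⟨n, rfl⟩ := hv
      exact ⟨n + 1, hpv, hvU⟩
  set D : Set (ℕ → ℕ) := {c | ∃ w : ℕ → ℕ, ∀ i, (c, w) ∉ B (c i)} with hD
  refine ⟨D, ?_, ?_⟩
  · have hcl : IsClosed {p : (ℕ → ℕ) × (ℕ → ℕ) | ∀ i, p ∉ B (p.1 i)} := by
      rw [← isOpen_compl_iff]
      have h1 : {p : (ℕ → ℕ) × (ℕ → ℕ) | ∀ i, p ∉ B (p.1 i)}ᶜ =
          ⋃ (i : ℕ), ⋃ (n : ℕ), ({p | p.1 i = n} ∩ B n) := by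
        ext p
        simp
      rw [h1]
      refine isOpen_iUnion fun i => isOpen_iUnion fun n => IsOpen.inter ?_ (hBo n)
      have h3 : Continuous fun p : (ℕ → ℕ) × (ℕ → ℕ) => p.1 i :=
        (continuous_apply i).comp continuous_fst
      exact (isOpen_discrete ({n} : Set ℕ)).preimage h3
    have h2 : D = Prod.fst '' {p : (ℕ → ℕ) × (ℕ → ℕ) | ∀ i, p ∉ B (p.1 i)} := by
      ext c
      constructor
      · rintro ⟨w, hw⟩
        exact ⟨(c, w), hw, rfl⟩
      · rintro ⟨p, hp, rfl⟩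
        exact ⟨p.2, hp⟩
    rw [h2]
    exact hcl.analyticSet.image_of_continuous continuous_fst
  · intro hDm
    have hDc : AnalyticSet Dᶜ := hDm.compl.analyticSet
    obtain ⟨F, hF, hFD⟩ : ∃ F : Set ((ℕ → ℕ) × (ℕ → ℕ)), IsClosed F ∧
        ∀ c, c ∈ Dᶜ ↔ ∃ w, (c, w) ∈ F := by
      rw [AnalyticSet] at hDc
      rcases hDc with h | ⟨h, hc, hr⟩
      · refine ⟨∅, isClosed_empty, fun c => ?_⟩
        rw [h]; simp
      · refine ⟨{p | h p.2 = p.1}, isClosed_eq (hc.comp continuous_snd) continuous_fst,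
          fun c => ?_⟩
        rw [← hr]
        rfl
    obtain ⟨c, hc⟩ : ∃ c : ℕ → ℕ, {n | Disjoint (B n) F} = range c :=
      (Set.to_countable _).exists_eq_range ⟨0, by simp [hB0]⟩
    have hFc : ∀ p, p ∈ F ↔ ∀ i, p ∉ B (c i) := by
      intro p
      constructor
      · intro hp i hpi
        have h1 : c i ∈ {n | Disjoint (B n) F} := hc ▸ mem_range_self i
        exact Set.disjoint_left.1 h1 hpi hp
      · intro hp
        by_contra hpF
        obtain ⟨n, hpn, hn⟩ := hB Fᶜ hF.isOpen_compl p hpF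
        have h1 : n ∈ {n | Disjoint (B n) F} := Set.disjoint_left.2 fun x hx => hn hx
        rw [hc] at h1
        obtain ⟨i, rfl⟩ := h1
        exact hp i hpn
    have h1 : c ∈ D ↔ c ∈ Dᶜ := by
      rw [hFD, hD]
      simp only [mem_ofPred_eq, hFc]
    exact (iff_not_self h1).elim

end Pool.Agent.Lib.MP_1073f4_an
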