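import Mathlib
import Pool.Agent.Lib.MP_1073f4_an.Defs
import Pool.Agent.Lib.MP_1073f4_an.Skew

/-!
# An uncountable zero set gives a non-trivial zero entropy factor
-/

set_option autoImplicit false

namespace Pool.Agent.Lib.MP_1073f4_an

open Set MeasureTheory Topology

/-- A devil's staircase: for an uncountable Borel subset `S` of `[0, 1]` there is a continuous
function `h` with `h 0 = 0`, `h 1 = 1` which is constant on the intervals missing `S`. -/
theorem exists_staircase {S : Set ℝ} (hS : MeasurableSet S) (hS01 : S ⊆ Icc 0 1)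
    (hunc : ¬ S.Countable) :
    ∃ h : ℝ → ℝ, Continuous h ∧ h 0 = 0 ∧ h 1 = 1 ∧
      ∀ a b, a ≤ b → (∀ y ∈ Ioc a b, y ∉ S) → h a = h b := by
  have hSc : ¬ Countable S := fun h => hunc (Set.countable_coe_iff.1 h)
  have hRc : ¬ Countable (Icc (0:ℝ) 1) := by
    intro h
    exact hunc ((Set.countable_coe_iff.1 h).mono hS01)
  have : StandardBorelSpace S := hS.standardBorel
  have : StandardBorelSpace (Icc (0:ℝ) 1) := measurableSet_Icc.standardBorel
  let e : Icc (0:ℝ) 1 ≃ᵐ S := PolishSpace.measurableEquivOfNotCountable hRc hSc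
  let j : Icc (0:ℝ) 1 → ℝ := fun t => (e t : ℝ)
  have hj : Measurable j := measurable_subtype_coe.comp e.measurable
  have hjinj : Function.Injective j := Subtype.val_injective.comp e.injective
  let μ : Measure ℝ := (volume : Measure (Icc (0:ℝ) 1)).map j
  have : IsProbabilityMeasure (volume : Measure (Icc (0:ℝ) 1)) := inferInstance
  have : IsProbabilityMeasure μ := Measure.isProbabilityMeasure_map hj.aemeasurable
  have hnoatom : ∀ y, μ {y} = 0 := by
    intro y
    rw [Measure.map_apply hj (measurableSet_singleton y)]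
    have : (j ⁻¹' {y}).Subsingleton := by
      intro a ha b hb
      exact hjinj (ha.trans hb.symm)
    exact this.measure_zero _
  have : NullSingletonClass μ := ⟨hnoatom⟩
  have hcompl : ∀ T : Set ℝ, MeasurableSet T → (∀ y ∈ T, y ∉ S) → μ T = 0 := by
    intro T hT hTS
    rw [Measure.map_apply hj hT]
    have : j ⁻¹' T = ∅ := by
      ext t
      simp only [mem_preimage, mem_empty_iff_false, iff_false]
      exact fun ht => hTS _ ht (e t).2
    rw [this, measure_empty]
  refine ⟨ProbabilityTheory.cdf μ, ?_, ?_, ?_, ?_⟩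
  · rw [continuous_iff_continuousAt]
    intro x
    rw [(ProbabilityTheory.monotone_cdf μ).continuousAt_iff_leftLim_eq_rightLim,
      StieltjesFunction.rightLim_eq]
    have h1 := (ProbabilityTheory.cdf μ).measure_singleton x
    rw [ProbabilityTheory.measure_cdf, hnoatom, eq_comm, ENNReal.ofReal_eq_zero] at h1
    exact le_antisymm ((ProbabilityTheory.monotone_cdf μ).leftLim_le le_rfl) (by linarith)
  · rw [ProbabilityTheory.cdf_eq_real]
    have : μ (Iic 0) = 0 := by
      rw [← Iio_union_right, measure_union_null_iff]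
      refine ⟨hcompl _ measurableSet_Iio fun y hy hyS => ?_, hnoatom 0⟩
      exact absurd (hS01 hyS).1 (not_le.2 hy)
    rw [measureReal_def, this, ENNReal.toReal_zero]
  · rw [ProbabilityTheory.cdf_eq_real]
    have h0 : μ (Iic 1)ᶜ = 0 := hcompl _ measurableSet_Iic.compl fun y hy hyS => by
      simp only [mem_compl_iff, mem_Iic, not_le] at hy
      exact absurd (hS01 hyS).2 (not_le.2 hy)
    have h1 : μ (Iic 1) = 1 := (prob_compl_eq_zero_iff measurableSet_Iic).1 h0
    rw [measureReal_def, h1, ENNReal.toReal_one]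
  · intro a b hab h
    rw [ProbabilityTheory.cdf_eq_real, ProbabilityTheory.cdf_eq_real]
    have h1 : μ (Ioc a b) = 0 := hcompl _ measurableSet_Ioc h
    have h2 : Iic b = Iic a ∪ Ioc a b := (Iic_union_Ioc_eq_Iic hab).symm
    rw [measureReal_def, measureReal_def, h2]
    congr 1
    refine le_antisymm (measure_mono subset_union_left) ?_
    calc μ (Iic a ∪ Ioc a b) ≤ μ (Iic a) + μ (Ioc a b) := measure_union_le _ _
      _ = μ (Iic a) := by rw [h1, add_zero]

/-- Pass to `[0, 1]` for a periodic uncountable set. -/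
theorem not_countable_inter {ρ : ℝ → ℝ} (hper : ∀ (y : ℝ) (k : ℤ), ρ (y + k) = ρ y)
    (hunc : ¬ {y | ρ y = 0}.Countable) : ¬ ({y | ρ y = 0} ∩ Icc 0 1).Countable := by
  intro h
  apply hunc
  have : {y | ρ y = 0} ⊆ ⋃ k : ℤ, (fun t : ℝ => t + k) '' ({y | ρ y = 0} ∩ Icc 0 1) := by
    intro y hy
    rw [mem_iUnion]
    refine ⟨⌊y⌋, Int.fract y, ⟨?_, Int.fract_nonneg _, (Int.fract_lt_one _).le⟩, ?_⟩
    · have h1 : ρ y = 0 := hy
      have h2 := hper (Int.fract y) ⌊y⌋
      rw [Int.fract_add_floor] at h2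
      exact h2.symm.trans h1
    · exact Int.fract_add_floor y
  exact (countable_iUnion fun k => h.image _).mono this

theorem not_hasCPE {n : ℕ} {i0 i1 : Fin n} {ρ : ℝ → ℝ} (hρ : Kick ρ) (hρ0 : ρ 0 = 0)
    (hunc : ¬ {y | ρ y = 0}.Countable) {f : Torus n → Torus n}
    (hf : ∀ v, f (toTorus v) = toTorus (skew i0 i1 ρ v)) : ¬ HasCPE f := by
  have hmeas : MeasurableSet ({y | ρ y = 0} ∩ Icc (0:ℝ) 1) :=
    ((isClosed_singleton.preimage hρ.continuous).measurableSet).inter measurableSet_Icc
  obtain ⟨h, hc, h0, h1, hconst⟩ := exists_staircase hmeas inter_subset_right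
    (not_countable_inter hρ.per hunc)
  let u : UnitAddCircle → UnitAddCircle := AddCircle.liftIco 1 0 (fun y : ℝ => (h y : UnitAddCircle))
  have huc : Continuous u := by
    apply AddCircle.liftIco_zero_continuous
    · rw [h0, h1]
      have := AddCircle.coe_period (1:ℝ)
      rw [this]
      rfl
    · exact ((AddCircle.continuous_mk' (1:ℝ)).comp hc).continuousOn
  have hu : ∀ y : ℝ, u (y : UnitAddCircle) = (h (Int.fract y) : UnitAddCircle) := by
    intro y
    rw [← AddCircle.coe_fract y]
    exact AddCircle.liftIco_zero_coe_apply ⟨Int.fract_nonneg _, Int.fract_lt_one _⟩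
  -- `u` does not see the kicks
  have hint : ∀ k : ℤ, ρ k = 0 := by
    intro k
    have := hρ.per 0 k
    rwa [zero_add, hρ0] at this
  have hle : ∀ y y' : ℝ, y ≤ y' → Conn ρ y y' → h (Int.fract y) = h (Int.fract y') := by
    intro y y' hyy' hcon
    have hfl : ⌊y'⌋ = ⌊y⌋ := by
      refine le_antisymm ?_ (Int.floor_mono hyy')
      by_contra hlt
      push Not at hlt
      have h2 : y < (⌊y'⌋ : ℝ) := Int.floor_lt.1 hlt
      have h3 := hcon ⌊y'⌋ (mem_uIcc.2 (Or.inl ⟨h2.le, Int.floor_le y'⟩))
      rw [hint] at h3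
      exact lt_irrefl _ h3
    apply hconst
    · simp only [Int.fract]
      rw [hfl]
      linarith
    · intro s hs hsS
      have h2 := hcon (s + ⌊y⌋) (mem_uIcc.2 (Or.inl ⟨?_, ?_⟩))
      · rw [hρ.per] at h2
        have h3 : ρ s = 0 := hsS.1
        linarith
      · have := hs.1
        simp only [Int.fract] at this
        linarith
      · have := hs.2
        simp only [Int.fract] at this
        rw [hfl] at this
        linarith
  have hkick : ∀ y t : ℝ, |t| ≤ 1 → u ((y + ρ y * t : ℝ) : UnitAddCircle) = u (y : UnitAddCircle) := by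
    intro y t ht
    rcases (hρ.nonneg y).eq_or_lt with h2 | h2
    · rw [← h2]; simp
    · have hcon : Conn ρ y (y + ρ y * t) := by
        refine conn_of_dist hρ h2 ?_
        rw [add_sub_cancel_left, abs_mul, abs_of_nonneg (hρ.nonneg _)]
        exact mul_le_of_le_one_right (hρ.nonneg _) ht
      rw [hu, hu]
      congr 1
      rcases le_total y (y + ρ y * t) with h3 | h3
      · exact (hle _ _ h3 hcon).symm
      · exact hle _ _ h3 hcon.symm
  have husurj : Function.Surjective u := by
    intro c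
    obtain ⟨s, rfl⟩ := QuotientAddGroup.mk_surjective c
    have h2 : (Int.fract s) ∈ Icc (h 0) (h 1) := by
      rw [h0, h1]
      exact ⟨Int.fract_nonneg _, (Int.fract_lt_one _).le⟩
    obtain ⟨y, hy, hys⟩ := intermediate_value_Icc zero_le_one hc.continuousOn h2
    have hy1 : y ≠ 1 := by
      rintro rfl
      rw [h1] at hys
      exact absurd hys.symm (Int.fract_lt_one s).ne
    have hy1' : y < 1 := lt_of_le_of_ne hy.2 hy1
    refine ⟨(y : UnitAddCircle), ?_⟩
    rw [hu, Int.fract_eq_self.2 ⟨hy.1, hy1'⟩, hys]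
    exact AddCircle.coe_fract s
  intro hcpe
  have hnt : Nontrivial UnitAddCircle := by
    refine ⟨⟨((1 / 2 : ℝ) : UnitAddCircle), 0, ?_⟩⟩
    intro h2
    rw [AddCircle.coe_eq_zero_iff] at h2
    obtain ⟨k, hk⟩ := h2
    have h3 : (k : ℝ) = 1 / 2 := by simpa using hk
    have h4 : ((2 * k : ℤ) : ℝ) = ((1 : ℤ) : ℝ) := by push_cast; linarith
    have h5 : 2 * k = 1 := by exact_mod_cast h4
    omega
  refine entropy_id (Y := UnitAddCircle) (hcpe UnitAddCircle id (fun p => u (p i0)) continuous_id
    (huc.comp (continuous_apply i0)) ?_ ?_ hnt)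
  · intro c
    obtain ⟨y, hy⟩ := husurj c
    exact ⟨fun _ => y, hy⟩
  · intro p
    have hp : ∃ v : Fin n → ℝ, toTorus v = p := by
      choose v hv using fun i => QuotientAddGroup.mk_surjective (p i)
      exact ⟨v, funext hv⟩
    obtain ⟨v, rfl⟩ := hp
    simp only [id]
    rw [hf]
    simp only [toTorus, skew, if_true]
    exact hkick _ _ (abs_theta_le _)

end Pool.Agent.Lib.MP_1073f4_an
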