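import Mathlib
import Pool.Agent.Lib.MP_1073f4_an.Defs
import Pool.Agent.Lib.MP_1073f4_an.Factor
import Pool.Agent.Lib.MP_1073f4_an.NotCPE
import Pool.Agent.Lib.MP_1073f4_an.Coding
import Pool.Agent.Lib.MP_1073f4_an.NonBorel

/-!
# The family of skew products and the reduction
-/

set_option autoImplicit false

namespace Pool.Agent.Lib.MP_1073f4_an

open Set Filter Topology MeasureTheory

/-! ### Countable zero set: completely positive entropy -/

theorem exists_lift {n : ℕ} (p : Torus n) : ∃ v : Fin n → ℝ, toTorus v = p := by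
  choose v hv using fun i => QuotientAddGroup.mk_surjective (p i)
  exact ⟨v, funext hv⟩

theorem toTorus_eq_of_eqv {n : ℕ} {v w : Fin n → ℝ} (h : Eqv v w) : toTorus v = toTorus w := by
  funext i
  obtain ⟨k, hk⟩ := h i
  simp only [toTorus]
  rw [hk, AddCircle.coe_add]
  have : ((k : ℝ) : UnitAddCircle) = 0 := by
    rw [AddCircle.coe_eq_zero_iff]
    exact ⟨k, by simp⟩
  rw [this, add_zero]

theorem toTorus_continuous {n : ℕ} : Continuous (toTorus (n := n)) :=
  continuous_pi fun i => (AddCircle.continuous_mk' (1:ℝ)).comp (continuous_apply i)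

theorem hasCPE_of_countable {n : ℕ} {i0 i1 : Fin n} (hne : i1 ≠ i0) {ρ : ℝ → ℝ} (hρ : Kick ρ)
    (hc : {y | ρ y = 0}.Countable) {f : Torus n → Torus n}
    (hf : ∀ v, f (toTorus v) = toTorus (skew i0 i1 ρ v)) : HasCPE f := by
  intro Y _ _ g π _ hπ hsurj hsemi hnt
  by_contra hent
  obtain ⟨y, y', hyy'⟩ := hnt
  obtain ⟨p, rfl⟩ := hsurj y
  obtain ⟨p', rfl⟩ := hsurj y'
  obtain ⟨v, rfl⟩ := exists_lift p
  obtain ⟨v', rfl⟩ := exists_lift p'
  refine hyy' (factor_const (P := fun v => π (toTorus v)) (g := g) hne hρ hc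
    (hπ.comp toTorus_continuous) ?_ ?_ hent v v')
  · intro v
    rw [← hf, hsemi]
  · intro v w h
    simp only [toTorus_eq_of_eqv h]

/-! ### Periodic functions as functions on the circle -/

/-- The function on the circle defined by a periodic function. -/
noncomputable def perLift (g : ℝ → ℝ) : UnitAddCircle → ℝ := AddCircle.liftIco 1 0 g

theorem perLift_coe {g : ℝ → ℝ} (hper : ∀ (y : ℝ) (k : ℤ), g (y + k) = g y) (y : ℝ) :
    perLift g (y : UnitAddCircle) = g y := by
  rw [← AddCircle.coe_fract y, perLift,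
    AddCircle.liftIco_zero_coe_apply ⟨Int.fract_nonneg _, Int.fract_lt_one _⟩]
  rw [← hper (Int.fract y) ⌊y⌋, Int.fract_add_floor]

theorem perLift_continuous {g : ℝ → ℝ} (hper : ∀ (y : ℝ) (k : ℤ), g (y + k) = g y)
    (hg : Continuous g) : Continuous (perLift g) := by
  apply AddCircle.liftIco_zero_continuous
  · have := hper 0 1
    simpa using this.symm
  · exact hg.continuousOn

/-- The torus map with lift `skew i0 i1 ρ`. -/
noncomputable def torusMap {n : ℕ} (i0 i1 : Fin n) (r : UnitAddCircle → ℝ) (p : Torus n) :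
    Torus n :=
  fun i => if i = i0 then p i0 + ((r (p i0) * perLift theta (p i1) : ℝ) : UnitAddCircle)
    else (8 : ℕ) • p i

theorem torusMap_toTorus {n : ℕ} {i0 i1 : Fin n} {r : UnitAddCircle → ℝ} {ρ : ℝ → ℝ}
    (h : ∀ y : ℝ, r y = ρ y) (v : Fin n → ℝ) :
    torusMap i0 i1 r (toTorus v) = toTorus (skew i0 i1 ρ v) := by
  funext i
  simp only [torusMap, toTorus, skew]
  by_cases hi : i = i0
  · simp only [if_pos hi]
    rw [h, perLift_coe theta_add_int, AddCircle.coe_add]
  · simp only [if_neg hi]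
    rw [← AddCircle.coe_nsmul]
    simp

theorem isCk_torusMap {n : ℕ} {k : ℕ∞} {i0 i1 : Fin n} {r : UnitAddCircle → ℝ} {ρ : ℝ → ℝ}
    (h : ∀ y : ℝ, r y = ρ y) (hρ : ContDiff ℝ k ρ) : IsCk k (torusMap i0 i1 r) := by
  refine ⟨skew i0 i1 ρ, ?_, torusMap_toTorus h⟩
  rw [contDiff_pi]
  intro i
  unfold skew
  by_cases hi : i = i0
  · simp only [if_pos hi]
    exact (contDiff_apply ℝ ℝ i0).add
      ((hρ.comp (contDiff_apply ℝ ℝ i0)).mul (theta_contDiff.comp (contDiff_apply ℝ ℝ i1)))
  · simp only [if_neg hi]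
    exact contDiff_const.mul (contDiff_apply ℝ ℝ i)

/-! ### The bump -/

/-- The periodic function `(1 - cos (2 π y)) / 2`. -/
noncomputable def wave (y : ℝ) : ℝ := (1 - Real.cos (2 * Real.pi * y)) / 2

theorem wave_per (y : ℝ) (k : ℤ) : wave (y + k) = wave y := by
  unfold wave
  have h : 2 * Real.pi * (y + k) = 2 * Real.pi * y + k * (2 * Real.pi) := by ring
  rw [h, Real.cos_add_int_mul_two_pi]

theorem wave_contDiff {n : ℕ∞} : ContDiff ℝ n wave := by
  unfold wave
  exact (contDiff_const.sub (Real.contDiff_cos.comp (contDiff_const.mul contDiff_id))).div_const _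

theorem wave_continuous : Continuous wave := (wave_contDiff (n := 0)).continuous

theorem wave_mem (y : ℝ) : wave y ∈ Icc (0:ℝ) 1 := by
  unfold wave
  have h1 := Real.neg_one_le_cos (2 * Real.pi * y)
  have h2 := Real.cos_le_one (2 * Real.pi * y)
  constructor <;> linarith

theorem wave_lip (y y' : ℝ) : |wave y - wave y'| ≤ 4 * |y - y'| := by
  unfold wave
  have h1 : |Real.cos (2 * Real.pi * y) - Real.cos (2 * Real.pi * y')| ≤
      |2 * Real.pi * y - 2 * Real.pi * y'| := by
    have := Real.lipschitzWith_cos.dist_le_mul (2 * Real.pi * y) (2 * Real.pi * y')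
    simpa [Real.dist_eq] using this
  rw [← mul_sub, abs_mul, abs_of_pos (by positivity : (0:ℝ) < 2 * Real.pi)] at h1
  have h2 : (1 - Real.cos (2 * Real.pi * y)) / 2 - (1 - Real.cos (2 * Real.pi * y')) / 2
      = -((Real.cos (2 * Real.pi * y) - Real.cos (2 * Real.pi * y')) / 2) := by ring
  rw [h2, abs_neg, abs_div, abs_of_pos (by norm_num : (0:ℝ) < 2)]
  have h3 := Real.pi_lt_d2
  have h4 := abs_nonneg (y - y')
  nlinarith [Real.pi_pos]

theorem wave_surj {t : ℝ} (ht : t ∈ Icc (0:ℝ) 1) : ∃ y, wave y = t := by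
  refine ⟨Real.arccos (1 - 2 * t) / (2 * Real.pi), ?_⟩
  unfold wave
  rw [mul_div_cancel₀ _ (by positivity), Real.cos_arccos (by linarith [ht.2]) (by linarith [ht.1])]
  ring

theorem wave_fiber_countable (t : ℝ) : {y | wave y = t}.Countable := by
  rcases Set.eq_empty_or_nonempty {y | wave y = t} with h | ⟨y₀, hy₀⟩
  · rw [h]; exact countable_empty
  · have hsub : {y | wave y = t} ⊆ range (fun k : ℤ => (k : ℝ) + y₀) ∪
        range (fun k : ℤ => (k : ℝ) - y₀) := by
      intro y hy
      have h1 : Real.cos (2 * Real.pi * y₀) = Real.cos (2 * Real.pi * y) := by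
        have h2 : wave y = wave y₀ := hy.trans hy₀.symm
        unfold wave at h2
        linarith
      have hpi : (2 * Real.pi) ≠ 0 := by positivity
      obtain ⟨k, hk | hk⟩ := Real.cos_eq_cos_iff.1 h1
      · left
        refine ⟨k, ?_⟩
        simp only
        apply mul_left_cancel₀ hpi
        rw [hk]; ring
      · right
        refine ⟨k, ?_⟩
        simp only
        apply mul_left_cancel₀ hpi
        rw [hk]; ring
    exact ((countable_range _).union (countable_range _)).mono hsub

/-! ### The reduction -/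

/-- A smooth function of the plane vanishing exactly on `planeSet F` and on the horizontal axis. -/
theorem exists_plane_function (F : (ℕ → ℕ) → (ℕ → ℕ)) :
    ∃ ψ : ℝ × ℝ → ℝ, (∀ p, ψ p = 0 ↔ p ∈ planeSet F ∨ p.2 = 0) ∧
      ContDiff ℝ ((⊤ : ℕ∞) : WithTop ℕ∞) ψ ∧ ∀ p, ψ p ∈ Icc (0:ℝ) 1 := by
  have hcl : IsClosed (planeSet F ∪ {p : ℝ × ℝ | p.2 = 0}) :=
    (isClosed_planeSet F).union (isClosed_eq continuous_snd continuous_const)
  obtain ⟨ψ, h1, h2, h3⟩ := hcl.isOpen_compl.exists_contDiff_support_eq (n := ⊤)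
  refine ⟨ψ, fun p => ?_, h2, fun p => h3 (mem_range_self p)⟩
  have h4 : p ∈ Function.support ψ ↔ p ∈ (planeSet F ∪ {p : ℝ × ℝ | p.2 = 0})ᶜ := by rw [h1]
  rw [Function.mem_support, mem_compl_iff, not_iff_not] at h4
  exact h4

theorem exists_scale {ψ : ℝ × ℝ → ℝ} (h : ContDiff ℝ ((⊤ : ℕ∞) : WithTop ℕ∞) ψ)
    (h01 : ∀ p, ψ p ∈ Icc (0:ℝ) 1) :
    ∃ ε : ℝ, 0 < ε ∧ ∀ c ∈ Icc (0:ℝ) 1, Kick fun y => ε * ψ (c, wave y) := by
  obtain ⟨K, hK⟩ := (h.contDiffOn (s := Icc (0:ℝ) 1 ×ˢ Icc (0:ℝ) 1)).exists_lipschitzOnWith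
    (by simp) ((convex_Icc 0 1).prod (convex_Icc 0 1)) (isCompact_Icc.prod isCompact_Icc)
  have hKpos : (0:ℝ) < 8 * (K + 1) := by positivity
  refine ⟨1 / (8 * (K + 1)), by positivity, fun c hc => ⟨?_, ?_, ?_, ?_⟩⟩
  · intro y
    exact mul_nonneg (by positivity) (h01 _).1
  · intro y
    have h1 : 1 / (8 * ((K:ℝ) + 1)) ≤ 1 := by
      rw [div_le_one hKpos]
      have : (0:ℝ) ≤ K := K.2
      linarith
    exact mul_le_one₀ h1 (h01 _).1 (h01 _).2
  · intro y y'
    have h1 : |ψ (c, wave y) - ψ (c, wave y')| ≤ K * |wave y - wave y'| := by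
      have := hK.dist_le_mul (c, wave y) ⟨hc, wave_mem y⟩ (c, wave y') ⟨hc, wave_mem y'⟩
      simpa [Prod.dist_eq, Real.dist_eq] using this
    rw [← mul_sub, abs_mul, abs_of_pos (by positivity : 0 < 1 / (8 * ((K:ℝ) + 1))), one_div,
      inv_mul_le_iff₀ hKpos]
    have h2 := wave_lip y y'
    have hK0 : (0:ℝ) ≤ K := K.2
    have h3 := mul_le_mul_of_nonneg_left h2 hK0
    have h4 := abs_nonneg (y - y')
    nlinarith
  · intro y k
    simp only [wave_per]

/-- The reduction: every coanalytic subset of the Baire space is a continuous preimage of the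
set of maps with completely positive entropy. -/
theorem reduction {n : ℕ} (hn : 2 ≤ n) (k : ℕ∞) (A : Set (ℕ → ℕ)) (hA : AnalyticSet Aᶜ) :
    ∃ Φ : (ℕ → ℕ) → CkMaps n k, Continuous Φ ∧
      ∀ z, z ∈ A ↔ HasCPE (Φ z : Torus n → Torus n) := by
  set i0 : Fin n := ⟨0, by omega⟩ with hi0
  set i1 : Fin n := ⟨1, by omega⟩ with hi1
  have hne : i1 ≠ i0 := by
    simp [hi0, hi1]
  rcases Set.eq_empty_or_nonempty Aᶜ with hemp | hnemp
  · -- `A` is everything: a constant map
    have hper : ∀ (y : ℝ) (k : ℤ), (fun _ : ℝ => (1 / 2 : ℝ)) (y + k) = (fun _ => 1 / 2) y :=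
      fun _ _ => rfl
    have hr : ∀ y : ℝ, (fun _ : UnitAddCircle => (1 / 2 : ℝ)) (y : UnitAddCircle) =
      (fun _ : ℝ => (1 / 2 : ℝ)) y := fun _ => rfl
    have hkick : Kick (fun _ : ℝ => (1 / 2 : ℝ)) :=
      ⟨fun _ => by norm_num, fun _ => by norm_num, fun y y' => by
        simp only [sub_self, abs_zero]; positivity, fun _ _ => rfl⟩
    have hcont : Continuous (torusMap i0 i1 (fun _ : UnitAddCircle => (1 / 2 : ℝ))) := by
      refine continuous_pi fun i => ?_
      unfold torusMap
      by_cases hi : i = i0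
      · simp only [if_pos hi]
        exact (continuous_apply i0).add ((AddCircle.continuous_mk' (1:ℝ)).comp
          (continuous_const.mul ((perLift_continuous theta_add_int theta_continuous).comp
            (continuous_apply i1))))
      · simp only [if_neg hi]
        exact (continuous_nsmul 8).comp (continuous_apply i)
    have hck : IsCk k (torusMap i0 i1 (fun _ : UnitAddCircle => (1 / 2 : ℝ))) :=
      isCk_torusMap (ρ := fun _ => (1 / 2 : ℝ)) hr contDiff_const
    let f0 : CkMaps n k := ⟨⟨_, hcont⟩, hck⟩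
    refine ⟨fun _ => f0, continuous_const, fun z => ?_⟩
    have hz : z ∈ A := by
      by_contra h
      have : z ∈ Aᶜ := h
      rw [hemp] at this
      exact this
    refine ⟨fun _ => ?_, fun _ => hz⟩
    have hf0 : ∀ v, torusMap i0 i1 (fun _ : UnitAddCircle => (1 / 2 : ℝ)) (toTorus v) =
        toTorus (skew i0 i1 (fun _ : ℝ => (1 / 2 : ℝ)) v) := fun v => torusMap_toTorus hr v
    show HasCPE (torusMap i0 i1 (fun _ : UnitAddCircle => (1 / 2 : ℝ)))
    refine hasCPE_of_countable hne hkick ?_ hf0
    have : {y : ℝ | (fun _ : ℝ => (1 / 2 : ℝ)) y = 0} = ∅ := by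
      ext y; simp
    rw [this]
    exact countable_empty
  · obtain ⟨F, hF, hunc, hmemF⟩ := exists_map hA hnemp
    obtain ⟨ψ, hψ0, hψs, hψ01⟩ := exists_plane_function F
    obtain ⟨ε, hε, hkick⟩ := exists_scale hψs hψ01
    have hcode : ∀ z, code z ∈ Icc (0:ℝ) 1 := fun z => ⟨(code_pos z).le, code_le_one z⟩
    -- the parameters
    let ρ : (ℕ → ℕ) → ℝ → ℝ := fun z y => ε * ψ (code z, wave y)
    let r : (ℕ → ℕ) → UnitAddCircle → ℝ := fun z c => ε * ψ (code z, perLift wave c)
    have hr : ∀ z (y : ℝ), r z (y : UnitAddCircle) = ρ z y := by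
      intro z y
      simp only [r, ρ, perLift_coe wave_per]
    have hψc : Continuous ψ := hψs.continuous
    have hrc : Continuous fun q : (ℕ → ℕ) × UnitAddCircle => r q.1 q.2 :=
      continuous_const.mul (hψc.comp ((code_continuous.comp continuous_fst).prodMk
        ((perLift_continuous wave_per wave_continuous).comp continuous_snd)))
    have hjoint : Continuous fun q : (ℕ → ℕ) × Torus n => torusMap i0 i1 (r q.1) q.2 := by
      refine continuous_pi fun i => ?_
      unfold torusMap
      by_cases hi : i = i0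
      · simp only [if_pos hi]
        have h1 : Continuous fun q : (ℕ → ℕ) × Torus n => q.2 i0 :=
          (continuous_apply i0).comp continuous_snd
        have h2 : Continuous fun q : (ℕ → ℕ) × Torus n => q.2 i1 :=
          (continuous_apply i1).comp continuous_snd
        exact h1.add ((AddCircle.continuous_mk' (1:ℝ)).comp
          ((hrc.comp (continuous_fst.prodMk h1)).mul
            ((perLift_continuous theta_add_int theta_continuous).comp h2)))
      · simp only [if_neg hi]
        exact (continuous_nsmul 8).comp ((continuous_apply i).comp continuous_snd)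
    have hcont : ∀ z, Continuous (torusMap i0 i1 (r z)) := fun z =>
      hjoint.comp (continuous_const.prodMk continuous_id)
    have hsmooth : ∀ z, ContDiff ℝ k (ρ z) := by
      intro z
      have h1 : ContDiff ℝ k ψ := hψs.of_le (by exact_mod_cast le_top)
      exact contDiff_const.mul (h1.comp (contDiff_const.prodMk wave_contDiff))
    have hck : ∀ z, IsCk k (torusMap i0 i1 (r z)) := fun z =>
      isCk_torusMap (ρ := ρ z) (hr z) (hsmooth z)
    refine ⟨fun z => ⟨⟨torusMap i0 i1 (r z), hcont z⟩, hck z⟩, ?_, ?_⟩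
    · refine Continuous.subtype_mk ?_ _
      exact ContinuousMap.continuous_of_continuous_uncurry _ hjoint
    · intro z
      have hzero : ∀ y, ρ z y = 0 ↔ ((code z, wave y) ∈ planeSet F ∨ wave y = 0) := by
        intro y
        simp only [ρ, mul_eq_zero, hε.ne', false_or, hψ0]
      have hfz : ∀ v, torusMap i0 i1 (r z) (toTorus v) = toTorus (skew i0 i1 (ρ z) v) :=
        fun v => torusMap_toTorus (hr z) v
      have hkz : Kick (ρ z) := hkick _ (hcode z)
      show z ∈ A ↔ HasCPE (torusMap i0 i1 (r z))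
      constructor
      · intro hz
        refine hasCPE_of_countable hne hkz ?_ hfz
        have hsub : {y | ρ z y = 0} ⊆ ⋃ q : ℚ, {y | wave y = q} := by
          intro y hy
          rw [mem_iUnion]
          rcases (hzero y).1 hy with h1 | h1
          · by_contra hcon
            have hirr : Irrational (wave y) := by
              rintro ⟨q, hq⟩
              exact hcon ⟨q, hq.symm⟩
            obtain ⟨w, -, hw⟩ := planeSet_irrational hF h1 hirr
            have := hmemF w
            rw [hw] at this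
            exact this hz
          · exact ⟨0, by simpa using h1⟩
        exact (countable_iUnion fun q : ℚ => wave_fiber_countable (q : ℝ)).mono hsub
      · intro hcpe
        by_contra hz
        refine not_hasCPE hkz ?_ ?_ hfz hcpe
        · rw [hzero]
          right
          simp [wave]
        · intro hcount
          apply hunc z hz
          have h1 : (wave '' {y | ρ z y = 0}).Countable := hcount.image _
          have h2 : code '' {w | F w = z} ⊆ wave '' {y | ρ z y = 0} := by
            rintro _ ⟨w, hw, rfl⟩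
            obtain ⟨y, hy⟩ := wave_surj (hcode w)
            refine ⟨y, ?_, hy⟩
            show ρ z y = 0
            rw [hzero, hy]
            left
            have := planeSet_mem F w
            rwa [show F w = z from hw] at this
          exact ((h1.mono h2).preimage_of_injOn code_injective.injOn).mono
            (subset_preimage_image _ _)

/-- The set of CPE maps is not Borel. -/
theorem not_borel {n : ℕ} (hn : 2 ≤ n) (k : ℕ∞) :
    ¬ @MeasurableSet (CkMaps n k) (borel _) {f | HasCPE (f : Torus n → Torus n)} := by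
  intro hB
  obtain ⟨D, hD, hDm⟩ := exists_analytic_not_measurable
  obtain ⟨Φ, hΦ, hΦD⟩ := reduction hn k Dᶜ (by rwa [compl_compl])
  apply hDm
  have h1 : @Measurable (ℕ → ℕ) (CkMaps n k) _ (borel _) Φ := by
    have := hΦ.borel_measurable
    rwa [← BorelSpace.measurable_eq (α := ℕ → ℕ)] at this
  have h2 : MeasurableSet (Φ ⁻¹' {f | HasCPE (f : Torus n → Torus n)}) := h1 hB
  have h3 : Φ ⁻¹' {f | HasCPE (f : Torus n → Torus n)} = Dᶜ := by
    ext z
    exact (hΦD z).symm
  rw [h3] at h2
  exact MeasurableSet.compl_iff.1 h2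

end Pool.Agent.Lib.MP_1073f4_an
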